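import Mathlib
import Pool.Agent.Helper2.ST.Defs

/-!
# MP_3942cb_co, block K: the induction step

Let `p` be a polynomial without zeros in `{Re x >= 0} \ {0}` and `h = (2 theta + c + 1)(2 theta + c) p`,
`g = x h`, `f = theta p`. If `|g|^2 + 4 Re (f conj g) > 0` on the imaginary axis then `f + g / 2`
has no zeros in `{Re x >= 0} \ {0}`.
-/

namespace STK

open Polynomial Filter Topology

/-- the operator `2 theta + c` -/
noncomputable def TT (c : ℝ) (p : ℂ[X]) : ℂ[X] := C 2 * X * derivative p + C (c : ℂ) * p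

theorem TT_coeff (c : ℝ) (p : ℂ[X]) (k : ℕ) : (TT c p).coeff k = (2 * k + c) * p.coeff k := by
  rw [TT, coeff_add, coeff_C_mul, mul_assoc, coeff_C_mul]
  rcases k with _ | k
  · simp
  · rw [coeff_X_mul, coeff_derivative]
    push_cast
    ring

theorem exists_root_ne_zero (q : ℂ[X]) (h0 : q.coeff 0 = 0) (h1 : q.coeff 1 ≠ 0)
    (h2 : q.coeff 2 ≠ 0) : ∃ z, z ≠ 0 ∧ q.eval z = 0 := by
  have hq : q = q.divX * X := by
    conv_lhs => rw [← divX_mul_X_add q]
    rw [h0]; simp
  have hdeg : q.divX.degree ≠ 0 := by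
    intro h
    have h3 : q.divX.coeff 1 = 0 := by
      apply coeff_eq_zero_of_degree_lt
      rw [h]
      exact_mod_cast Nat.one_pos
    rw [coeff_divX] at h3
    exact h2 h3
  obtain ⟨z, hz⟩ := IsAlgClosed.exists_root q.divX hdeg
  refine ⟨z, ?_, ?_⟩
  · rintro rfl
    rw [IsRoot.def, ← coeff_zero_eq_eval_zero, coeff_divX] at hz
    exact h1 hz
  · rw [hq, eval_mul, hz.eq_zero, zero_mul]

theorem TT_ne_zero (c : ℝ) (hc : 0 < c) (p : ℂ[X])
    (hp : ∀ x : ℂ, 0 ≤ x.re → x ≠ 0 → p.eval x ≠ 0) (hz : ∃ z, z ≠ 0 ∧ p.eval z = 0)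
    (x : ℂ) (hx : 0 ≤ x.re) (hx0 : x ≠ 0) : (TT c p).eval x ≠ 0 := by
  intro h
  have hpx := hp x hx hx0
  have h1 : 2 * x * p.derivative.eval x + c * p.eval x = 0 := by
    simpa [TT] using h
  have h2 : p.derivative.eval x / p.eval x = -(c / (2 * x)) := by
    field_simp
    linear_combination h1
  have h3 := (IsAlgClosed.splits p).eval_derivative_div_eval_of_ne_zero hpx
  rw [h3] at h2
  have hp0 : p ≠ 0 := by
    rintro rfl
    simp at hpx
  obtain ⟨z, hz0, hzr⟩ := hz
  have hmem : z ∈ p.roots := (mem_roots hp0).2 hzr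
  obtain ⟨t, ht⟩ := Multiset.exists_cons_of_mem hmem
  have hnn : ∀ w ∈ p.roots, w ≠ 0 → 0 < (1 / (x - w)).re := by
    intro w hw hw0
    have hwr : p.eval w = 0 := (mem_roots hp0).1 hw
    have hre : w.re < 0 := by
      by_contra hcon
      exact hp w (not_lt.1 hcon) hw0 hwr
    have h5 : 0 < (x - w).re := by rw [Complex.sub_re]; linarith
    rw [one_div, Complex.inv_re]
    refine div_pos h5 (Complex.normSq_pos.2 ?_)
    intro h6
    rw [h6] at h5
    simp at h5
  have hnn' : ∀ w ∈ p.roots, 0 ≤ (1 / (x - w)).re := by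
    intro w hw
    by_cases hw0 : w = 0
    · rw [hw0, sub_zero, one_div, Complex.inv_re]
      exact div_nonneg hx (Complex.normSq_nonneg _)
    · exact (hnn w hw hw0).le
  have h4 : 0 < ((p.roots.map fun w => 1 / (x - w)).sum).re := by
    rw [ht, Multiset.map_cons, Multiset.sum_cons, Complex.add_re]
    have h6 : 0 ≤ ((t.map fun w => 1 / (x - w)).sum).re := by
      have h7 : ((t.map fun w => 1 / (x - w)).sum).re = (t.map fun w => (1 / (x - w)).re).sum := by
        have := map_multiset_sum Complex.reAddGroupHom (t.map fun w => 1 / (x - w))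
        rw [Multiset.map_map] at this
        exact this
      rw [h7]
      refine Multiset.sum_nonneg ?_
      intro a ha
      obtain ⟨w, hw, rfl⟩ := Multiset.mem_map.1 ha
      exact hnn' w (by rw [ht]; exact Multiset.mem_cons_of_mem hw)
    have h8 := hnn z hmem hz0
    linarith
  rw [h2] at h4
  have h9 : 0 ≤ ((c : ℂ) / (2 * x)).re := by
    have : (c : ℂ) / (2 * x) = ((c / 2 : ℝ) : ℂ) * x⁻¹ := by
      push_cast
      field_simp
    rw [this, Complex.re_ofReal_mul, Complex.inv_re]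
    exact mul_nonneg (by positivity) (div_nonneg hx (Complex.normSq_nonneg _))
  rw [Complex.neg_re] at h4
  linarith

/-- the quotient tends to `0` at infinity -/
theorem tendsto_div_zero (f g : ℂ[X]) (hg : g ≠ 0) (hd : f.natDegree < g.natDegree) :
    Tendsto (fun x : ℂ => f.eval x / g.eval x) (Bornology.cobounded ℂ) (𝓝 0) := by
  have key : ∀ (q : ℂ[X]) (x : ℂ), x ≠ 0 →
      q.eval x = q.reverse.eval x⁻¹ * x ^ q.natDegree := by
    intro q x hx
    have : Invertible x := invertibleOfNonzero hx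
    have h := eval₂_reverse_mul_pow (RingHom.id ℂ) x q
    rw [invOf_eq_inv] at h
    simpa [eval₂_id] using h.symm
  have h1 : Tendsto (fun x : ℂ => x⁻¹) (Bornology.cobounded ℂ) (𝓝 0) :=
    tendsto_inv₀_cobounded
  have h2 : ∀ q : ℂ[X], Tendsto (fun x : ℂ => q.reverse.eval x⁻¹) (Bornology.cobounded ℂ)
      (𝓝 q.leadingCoeff) := by
    intro q
    have h3 : Tendsto (fun x : ℂ => q.reverse.eval x) (𝓝 0) (𝓝 (q.reverse.eval 0)) :=
      q.reverse.continuous.tendsto 0
    rw [← coeff_zero_eq_eval_zero, coeff_zero_reverse] at h3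
    exact h3.comp h1
  obtain ⟨k, hk⟩ : ∃ k, g.natDegree = f.natDegree + 1 + k := ⟨g.natDegree - f.natDegree - 1, by omega⟩
  have h4 : Tendsto (fun x : ℂ => (f.reverse.eval x⁻¹ / g.reverse.eval x⁻¹) * x⁻¹ ^ (1 + k))
      (Bornology.cobounded ℂ) (𝓝 ((f.leadingCoeff / g.leadingCoeff) * 0 ^ (1 + k))) :=
    ((h2 f).div (h2 g) (leadingCoeff_ne_zero.2 hg)).mul (h1.pow _)
  rw [show (0 : ℂ) ^ (1 + k) = 0 by simp, mul_zero] at h4
  refine h4.congr' ?_
  have h5 : ∀ᶠ x : ℂ in Bornology.cobounded ℂ, x ≠ 0 := Bornology.eventually_ne_cobounded 0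
  filter_upwards [h5] with x hx
  rw [key f x hx, key g x hx, hk]
  have : x ^ (f.natDegree + 1 + k) = x ^ f.natDegree * x ^ (1 + k) := by
    rw [← pow_add]; congr 1; ring
  rw [this, inv_pow]
  by_cases h6 : g.reverse.eval x⁻¹ = 0
  · rw [h6]; simp
  · field_simp

/-- the abstract induction step -/
theorem step_abs (p h : ℂ[X]) (a1 a2 q1 q2 : ℝ) (ha1 : 0 < a1) (ha2 : 0 < a2) (hq1 : 0 < q1)
    (hq : q2 ≤ 2 * q1) (hp1 : p.coeff 1 = a1) (hp2 : p.coeff 2 = a2)
    (hh0 : h.coeff 0 = 0) (hh1 : h.coeff 1 = q1 * a1) (hh2 : h.coeff 2 = q2 * a2)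
    (hdeg : (derivative p).natDegree + 1 ≤ h.natDegree)
    (hh : ∀ x : ℂ, 0 ≤ x.re → x ≠ 0 → h.eval x ≠ 0)
    (hW : ∀ y : ℝ, y ≠ 0 → 0 < ((starRingEnd ℂ) (Complex.I * y * h.eval (Complex.I * y)) *
      (Complex.I * y * h.eval (Complex.I * y) +
        4 * (Complex.I * y * (derivative p).eval (Complex.I * y)))).re)
    (x : ℂ) (hx : 0 ≤ x.re) (hx0 : x ≠ 0) :
    x * (derivative p).eval x + x * h.eval x / 2 ≠ 0 := by
  set f : ℂ[X] := X * derivative p with hf
  set g : ℂ[X] := X * h with hg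
  have hfe : ∀ x, f.eval x = x * (derivative p).eval x := fun x => by simp [hf]
  have hge : ∀ x, g.eval x = x * h.eval x := fun x => by simp [hg]
  have hgne : ∀ x : ℂ, 0 ≤ x.re → x ≠ 0 → g.eval x ≠ 0 := fun x h1 h2 => by
    rw [hge]; exact mul_ne_zero h2 (hh x h1 h2)
  rw [← hfe, ← hge]
  intro hzero
  set φ : ℂ → ℂ := fun x => f.eval x / g.eval x with hφ
  have hφ0 : φ x = -(1 / 2) := by
    rw [hφ]
    have := hgne x hx hx0
    show f.eval x / g.eval x = _
    rw [div_eq_iff this]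
    linear_combination hzero
  -- the imaginary axis
  have hax : ∀ z : ℂ, z.re = 0 → z ≠ 0 → -(1 / 4) ≤ (φ z).re := by
    intro z hz hz0
    have hzy : z = Complex.I * (z.im : ℂ) := by
      apply Complex.ext <;> simp [hz]
    have hy : z.im ≠ 0 := by
      intro h; apply hz0; apply Complex.ext
      · simpa using hz
      · simpa using h
    have hW' := hW z.im hy
    rw [← hzy, ← hge, ← hfe] at hW'
    have hgz := hgne z hz.ge hz0
    have hns : 0 < Complex.normSq (g.eval z) := Complex.normSq_pos.2 hgz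
    have e1 : ((starRingEnd ℂ) (g.eval z) * (g.eval z + 4 * f.eval z)).re =
        Complex.normSq (g.eval z) * (1 + 4 * (φ z).re) := by
      have e2 : f.eval z = φ z * g.eval z := by
        show f.eval z = f.eval z / g.eval z * g.eval z
        rw [div_mul_cancel₀ _ hgz]
      rw [e2, show (starRingEnd ℂ) (g.eval z) * (g.eval z + 4 * (φ z * g.eval z)) =
        (g.eval z * (starRingEnd ℂ) (g.eval z)) * (1 + 4 * φ z) by ring, Complex.mul_conj,
        Complex.re_ofReal_mul]
      simp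
    rw [e1] at hW'
    have := (mul_pos_iff_of_pos_left hns).1 hW'
    linarith
  by_cases hxre : x.re = 0
  · have := hax x hxre hx0
    rw [hφ0] at this
    norm_num at this
  have hxpos : 0 < x.re := lt_of_le_of_ne hx (Ne.symm hxre)
  -- infinity
  have hh_ne : h ≠ 0 := by
    rintro rfl
    simp at hh1
    rcases hh1 with h | h
    · exact hq1.ne' h
    · exact ha1.ne' h
  have hgdeg : g.natDegree = h.natDegree + 1 := by
    rw [hg, natDegree_X_mul hh_ne]
  have hfdeg : f.natDegree < g.natDegree := by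
    have h1 : f.natDegree ≤ (derivative p).natDegree + 1 := by
      rw [hf]
      refine le_trans natDegree_mul_le ?_
      rw [natDegree_X]; omega
    omega
  have hgne0 : g ≠ 0 := by rw [hg]; exact mul_ne_zero X_ne_zero hh_ne
  have hlim := tendsto_div_zero f g hgne0 hfdeg
  obtain ⟨R, hR⟩ : ∃ R : ℝ, ∀ z : ℂ, R ≤ ‖z‖ → ‖φ z‖ ≤ 1 / 4 := by
    have h1 : ∀ᶠ z : ℂ in Bornology.cobounded ℂ, ‖φ z‖ < 1 / 4 := by
      have := (tendsto_zero_iff_norm_tendsto_zero.1 hlim).eventually
        (gt_mem_nhds (show (0 : ℝ) < 1 / 4 by norm_num))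
      exact this
    rw [← comap_norm_atTop, Filter.eventually_comap, Filter.eventually_atTop] at h1
    obtain ⟨R, hR⟩ := h1
    exact ⟨R, fun z hz => (hR ‖z‖ hz z rfl).le⟩
  -- zero
  obtain ⟨r, hr, hr'⟩ : ∃ r : ℝ, 0 < r ∧ ∀ z : ℂ, 0 ≤ z.re → z ≠ 0 → ‖z‖ ≤ r →
      -(1 / 4) ≤ (φ z).re := by
    set h1 : ℂ[X] := h.divX with hh1d
    have hhX : h = X * h1 := by
      conv_lhs => rw [← divX_mul_X_add h]
      rw [hh0]; simp [mul_comm, hh1d]
    set w : ℂ[X] := (derivative p - C ((1 / q1 : ℝ) : ℂ) * h1).divX with hw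
    have hq1c : (q1 : ℂ) ≠ 0 := by exact_mod_cast hq1.ne'
    have ha1c : (a1 : ℂ) ≠ 0 := by exact_mod_cast ha1.ne'
    have hwX : derivative p - C ((1 / q1 : ℝ) : ℂ) * h1 = X * w := by
      conv_lhs => rw [← divX_mul_X_add (derivative p - C ((1 / q1 : ℝ) : ℂ) * h1)]
      rw [coeff_sub, coeff_C_mul, coeff_derivative, hh1d, coeff_divX, zero_add, hp1, hh1]
      rw [show ((a1 : ℂ) * (((0 : ℕ) : ℂ) + 1) - ((1 / q1 : ℝ) : ℂ) * ((q1 : ℂ) * (a1 : ℂ))) = 0 by
        push_cast
        field_simp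
        ring]
      rw [C_0, add_zero, mul_comm]
    have hw0 : w.eval 0 = (((2 - q2 / q1) * a2 : ℝ) : ℂ) := by
      rw [← coeff_zero_eq_eval_zero, hw, coeff_divX, coeff_sub, coeff_C_mul, coeff_derivative,
        hh1d, coeff_divX, zero_add, hp2, hh2]
      push_cast
      field_simp
      ring
    have hh10 : h1.eval 0 = ((q1 * a1 : ℝ) : ℂ) := by
      rw [← coeff_zero_eq_eval_zero, hh1d, coeff_divX, zero_add, hh1]
      push_cast; rfl
    have hh1ne : h1.eval 0 ≠ 0 := by
      rw [hh10]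
      exact_mod_cast (mul_pos hq1 ha1).ne'
    have hcont : ContinuousAt (fun z : ℂ => (w.eval z / h1.eval z).re) 0 := by
      refine Complex.continuous_re.continuousAt.comp ?_
      exact (w.continuous.continuousAt).div (h1.continuous.continuousAt) hh1ne
    have hval : 0 ≤ (w.eval 0 / h1.eval 0).re := by
      rw [hw0, hh10, ← Complex.ofReal_div, Complex.ofReal_re]
      have : 0 ≤ 2 - q2 / q1 := by
        rw [sub_nonneg, div_le_iff₀ hq1]; exact hq
      positivity
    have hev : ∀ᶠ z : ℂ in 𝓝 0, -(1 / 4) < (w.eval z / h1.eval z).re :=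
      hcont.eventually (lt_mem_nhds (by linarith : -(1 / 4) < (w.eval 0 / h1.eval 0).re))
    obtain ⟨r, hr, hball⟩ := Metric.eventually_nhds_iff.1 hev
    refine ⟨r / 2, by positivity, fun z hz hz0 hzr => ?_⟩
    have hb := hball (show dist z 0 < r by rw [dist_zero_right]; linarith)
    have hhz := hh z hz hz0
    have hh1z : h1.eval z ≠ 0 := by
      intro h2
      apply hhz
      rw [hhX, eval_mul, h2, mul_zero]
    have e1 : φ z = ((1 / q1 : ℝ) : ℂ) * z⁻¹ + w.eval z / h1.eval z := by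
      show f.eval z / g.eval z = _
      have e2 : (derivative p).eval z = ((1 / q1 : ℝ) : ℂ) * h1.eval z + z * w.eval z := by
        have := congrArg (eval z) hwX
        simp only [eval_sub, eval_mul, eval_C, eval_X] at this
        linear_combination this
      rw [hfe, hge, hhX, eval_mul, eval_X, e2]
      field_simp
    rw [e1, Complex.add_re, Complex.re_ofReal_mul, Complex.inv_re]
    have e3 : 0 ≤ 1 / q1 * (z.re / Complex.normSq z) :=
      mul_nonneg (by positivity) (div_nonneg hz (Complex.normSq_nonneg _))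
    linarith
  -- the domain
  set r' := min r (‖x‖ / 2) with hr'def
  set R' := max R (2 * ‖x‖) with hR'def
  have hxn : 0 < ‖x‖ := norm_pos_iff.2 hx0
  have hr'pos : 0 < r' := lt_min hr (by positivity)
  have hr'x : r' < ‖x‖ := lt_of_le_of_lt (min_le_right _ _) (by linarith)
  have hR'x : ‖x‖ < R' := lt_of_lt_of_le (by linarith) (le_max_right _ _)
  set U : Set ℂ := {z | 0 < z.re} ∩ {z | r' < ‖z‖} ∩ {z | ‖z‖ < R'} with hU
  have hUo : IsOpen U :=
    ((isOpen_lt continuous_const Complex.continuous_re).inter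
      (isOpen_lt continuous_const continuous_norm)).inter
      (isOpen_lt continuous_norm continuous_const)
  have hUb : Bornology.IsBounded U :=
    (Metric.isBounded_ball (x := (0 : ℂ)) (r := R')).subset (fun z hz => by
      rw [mem_ball_zero_iff]; exact hz.2)
  have hcl : closure U ⊆ {z | 0 ≤ z.re} ∩ {z | r' ≤ ‖z‖} ∩ {z | ‖z‖ ≤ R'} := by
    refine closure_minimal ?_ ?_
    · intro z hz
      have h1 : 0 < z.re := hz.1.1
      have h2 : r' < ‖z‖ := hz.1.2
      have h3 : ‖z‖ < R' := hz.2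
      exact ⟨⟨h1.le, h2.le⟩, h3.le⟩
    · exact ((isClosed_le continuous_const Complex.continuous_re).inter
        (isClosed_le continuous_const continuous_norm)).inter
        (isClosed_le continuous_norm continuous_const)
  have hclne : ∀ z ∈ closure U, 0 ≤ z.re ∧ z ≠ 0 := by
    intro z hz
    refine ⟨(hcl hz).1.1, ?_⟩
    rintro rfl
    have := (hcl hz).1.2
    simp only [Set.mem_ofPred_eq, norm_zero] at this
    linarith
  have hdiff : DifferentiableOn ℂ (fun z => Complex.exp (-φ z)) (closure U) := by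
    intro z hz
    obtain ⟨h1, h2⟩ := hclne z hz
    have h3 : DifferentiableAt ℂ φ z :=
      (f.differentiable.differentiableAt).div (g.differentiable.differentiableAt) (hgne z h1 h2)
    exact (h3.neg.cexp).differentiableWithinAt
  have hfr : ∀ z ∈ frontier U, ‖Complex.exp (-φ z)‖ ≤ Real.exp (1 / 4) := by
    intro z hz
    rw [Complex.norm_exp, Complex.neg_re]
    refine Real.exp_le_exp.2 ?_
    have hzc : z ∈ closure U := frontier_subset_closure hz
    obtain ⟨h1, h2⟩ := hclne z hzc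
    have hznU : z ∉ U := by
      rw [hUo.frontier_eq] at hz
      exact hz.2
    have hc := hcl hzc
    by_cases h3 : z.re = 0
    · have := hax z h3 h2
      linarith
    by_cases h4 : ‖z‖ ≤ r'
    · have := hr' z h1 h2 (le_trans h4 (min_le_left _ _))
      linarith
    by_cases h5 : R' ≤ ‖z‖
    · have h6 := hR z (le_trans (le_max_left _ _) h5)
      have h7 := (abs_le.1 (le_trans (Complex.abs_re_le_norm (φ z)) h6)).1
      linarith
    · exfalso
      apply hznU
      exact ⟨⟨lt_of_le_of_ne h1 (Ne.symm h3), not_le.1 h4⟩, not_le.1 h5⟩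
  have hxU : x ∈ closure U := subset_closure ⟨⟨hxpos, hr'x⟩, hR'x⟩
  have := Complex.norm_le_of_forall_mem_frontier_norm_le hUb hdiff.diffContOnCl hfr hxU
  rw [hφ0, Complex.norm_exp] at this
  have h8 := Real.exp_le_exp.1 this
  norm_num at h8

end STK
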