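import Pool.Agent.Helper2.ST.K.Fast

/-!
# MP_3942cb_co, block K: tests 3 <= n < 400
-/

namespace STK

def c3 : PLift (adv 0 (fun n l => run 7 26 100 20 n l) 3 [1, 10] = true) := PLift.up <| by
  decide +kernel

def c103 : PLift (adv 100 (fun n l => run 8 34 100 2613 n l) 3 [1, 10] = true) := PLift.up <| by
  decide +kernel

def c203 : PLift (adv 200 (fun n l => run 9 37 82 5939 n l) 3 [1, 10] = true) := PLift.up <| by
  decide +kernel

def c285 : PLift (adv 282 (fun n l => run 9 38 50 8894 n l) 3 [1, 10] = true) := PLift.up <| by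
  decide +kernel

def c335 : PLift (adv 332 (fun n l => run 9 39 38 10766 n l) 3 [1, 10] = true) := PLift.up <| by
  decide +kernel

def c373 : PLift (adv 370 (fun n l => run 9 39 27 12218 n l) 3 [1, 10] = true) := PLift.up <| by
  decide +kernel

end STK
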