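import Pool.Agent.Helper2.ST.K.R399

/-!
# MP_3942cb_co, block K: tests 400 <= n < 500
-/

namespace STK

def c400 : PLift (adv 0 (fun n l => run 9 40 30 13263 n l) 400 row399 = true) := PLift.up <| by
  decide +kernel

def c430 : PLift (adv 30 (fun n l => run 9 40 25 14437 n l) 400 row399 = true) := PLift.up <| by
  decide +kernel

def c455 : PLift (adv 55 (fun n l => run 9 40 22 15425 n l) 400 row399 = true) := PLift.up <| by
  decide +kernel

def c477 : PLift (adv 77 (fun n l => run 9 41 20 16300 n l) 400 row399 = true) := PLift.up <| by
  decide +kernel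

def c497 : PLift (adv 97 (fun n l => run 9 40 3 17101 n l) 400 row399 = true) := PLift.up <| by
  decide +kernel

end STK
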