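import Pool.Agent.Helper2.ST.K.R499

/-!
# MP_3942cb_co, block K: tests 500 <= n < 600
-/

namespace STK

def c500 : PLift (adv 0 (fun n l => run 10 41 20 17222 n l) 500 row499 = true) := PLift.up <| by
  decide +kernel

def c520 : PLift (adv 20 (fun n l => run 10 41 18 18028 n l) 500 row499 = true) := PLift.up <| by
  decide +kernel

def c538 : PLift (adv 38 (fun n l => run 10 41 16 18758 n l) 500 row499 = true) := PLift.up <| by
  decide +kernel

def c554 : PLift (adv 54 (fun n l => run 10 41 15 19409 n l) 500 row499 = true) := PLift.up <| by
  decide +kernel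

def c569 : PLift (adv 69 (fun n l => run 10 41 13 20022 n l) 500 row499 = true) := PLift.up <| by
  decide +kernel

def c582 : PLift (adv 82 (fun n l => run 10 42 12 20555 n l) 500 row499 = true) := PLift.up <| by
  decide +kernel

def c594 : PLift (adv 94 (fun n l => run 10 42 6 21049 n l) 500 row499 = true) := PLift.up <| by
  decide +kernel

end STK
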