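import Pool.Agent.Helper2.ST.K.R599

/-!
# MP_3942cb_co, block K: tests 600 <= n < 700
-/

namespace STK

def c600 : PLift (adv 0 (fun n l => run 10 42 14 21296 n l) 600 row599 = true) := PLift.up <| by
  decide +kernel

def c614 : PLift (adv 14 (fun n l => run 10 42 13 21875 n l) 600 row599 = true) := PLift.up <| by
  decide +kernel

def c627 : PLift (adv 27 (fun n l => run 10 42 12 22414 n l) 600 row599 = true) := PLift.up <| by
  decide +kernel

def c639 : PLift (adv 39 (fun n l => run 10 42 11 22912 n l) 600 row599 = true) := PLift.up <| by
  decide +kernel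

def c650 : PLift (adv 50 (fun n l => run 10 42 10 23371 n l) 600 row599 = true) := PLift.up <| by
  decide +kernel

def c660 : PLift (adv 60 (fun n l => run 10 42 10 23788 n l) 600 row599 = true) := PLift.up <| by
  decide +kernel

def c670 : PLift (adv 70 (fun n l => run 10 42 9 24207 n l) 600 row599 = true) := PLift.up <| by
  decide +kernel

def c679 : PLift (adv 79 (fun n l => run 10 42 9 24584 n l) 600 row599 = true) := PLift.up <| by
  decide +kernel

def c688 : PLift (adv 88 (fun n l => run 10 43 8 24962 n l) 600 row599 = true) := PLift.up <| by
  decide +kernel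

def c696 : PLift (adv 96 (fun n l => run 10 42 4 25299 n l) 600 row599 = true) := PLift.up <| by
  decide +kernel

end STK
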