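import Pool.Agent.Helper2.ST.K.R699

/-!
# MP_3942cb_co, block K: tests 700 <= n < 779
-/

namespace STK

def c700 : PLift (adv 0 (fun n l => run 10 43 10 25467 n l) 700 row699 = true) := PLift.up <| by
  decide +kernel

def c710 : PLift (adv 10 (fun n l => run 10 43 9 25889 n l) 700 row699 = true) := PLift.up <| by
  decide +kernel

def c719 : PLift (adv 19 (fun n l => run 10 43 9 26270 n l) 700 row699 = true) := PLift.up <| by
  decide +kernel

def c728 : PLift (adv 28 (fun n l => run 10 43 8 26651 n l) 700 row699 = true) := PLift.up <| by
  decide +kernel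

def c736 : PLift (adv 36 (fun n l => run 10 43 8 26990 n l) 700 row699 = true) := PLift.up <| by
  decide +kernel

def c744 : PLift (adv 44 (fun n l => run 10 43 8 27329 n l) 700 row699 = true) := PLift.up <| by
  decide +kernel

def c752 : PLift (adv 52 (fun n l => run 10 43 7 27670 n l) 700 row699 = true) := PLift.up <| by
  decide +kernel

def c759 : PLift (adv 59 (fun n l => run 10 43 7 27968 n l) 700 row699 = true) := PLift.up <| by
  decide +kernel

def c766 : PLift (adv 66 (fun n l => run 10 43 7 28266 n l) 700 row699 = true) := PLift.up <| by
  decide +kernel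

def c773 : PLift (adv 73 (fun n l => run 10 43 6 28565 n l) 700 row699 = true) := PLift.up <| by
  decide +kernel

end STK
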