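import Pool.Agent.Helper2.ST.K.R699

/-!
# MP_3942cb_co, block K: tests 779 <= n < 800
-/

namespace STK

def c779 : PLift (adv 79 (fun n l => run 10 43 6 28822 n l) 700 row699 = true) := PLift.up <| by
  decide +kernel

def c785 : PLift (adv 85 (fun n l => run 10 43 6 29078 n l) 700 row699 = true) := PLift.up <| by
  decide +kernel

def c791 : PLift (adv 91 (fun n l => run 10 43 5 29335 n l) 700 row699 = true) := PLift.up <| by
  decide +kernel

def c796 : PLift (adv 96 (fun n l => run 10 43 4 29550 n l) 700 row699 = true) := PLift.up <| by
  decide +kernel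

end STK
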