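import Pool.Agent.Helper2.ST.K.R799

/-!
# MP_3942cb_co, block K: tests 800 <= n < 862
-/

namespace STK

def c800 : PLift (adv 0 (fun n l => run 10 43 8 29721 n l) 800 row799 = true) := PLift.up <| by
  decide +kernel

def c808 : PLift (adv 8 (fun n l => run 10 43 7 30065 n l) 800 row799 = true) := PLift.up <| by
  decide +kernel

def c815 : PLift (adv 15 (fun n l => run 10 43 7 30366 n l) 800 row799 = true) := PLift.up <| by
  decide +kernel

def c822 : PLift (adv 22 (fun n l => run 10 44 7 30667 n l) 800 row799 = true) := PLift.up <| by
  decide +kernel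

def c829 : PLift (adv 29 (fun n l => run 10 43 6 30969 n l) 800 row799 = true) := PLift.up <| by
  decide +kernel

def c835 : PLift (adv 35 (fun n l => run 10 43 6 31228 n l) 800 row799 = true) := PLift.up <| by
  decide +kernel

def c841 : PLift (adv 41 (fun n l => run 10 44 6 31487 n l) 800 row799 = true) := PLift.up <| by
  decide +kernel

def c847 : PLift (adv 47 (fun n l => run 10 44 5 31746 n l) 800 row799 = true) := PLift.up <| by
  decide +kernel

def c852 : PLift (adv 52 (fun n l => run 10 44 5 31962 n l) 800 row799 = true) := PLift.up <| by
  decide +kernel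

def c857 : PLift (adv 57 (fun n l => run 10 44 5 32179 n l) 800 row799 = true) := PLift.up <| by
  decide +kernel

end STK
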