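import Pool.Agent.Helper2.ST.K.R799

/-!
# MP_3942cb_co, block K: tests 862 <= n < 900
-/

namespace STK

def c862 : PLift (adv 62 (fun n l => run 10 44 5 32395 n l) 800 row799 = true) := PLift.up <| by
  decide +kernel

def c867 : PLift (adv 67 (fun n l => run 10 44 5 32612 n l) 800 row799 = true) := PLift.up <| by
  decide +kernel

def c872 : PLift (adv 72 (fun n l => run 10 44 4 32829 n l) 800 row799 = true) := PLift.up <| by
  decide +kernel

def c876 : PLift (adv 76 (fun n l => run 10 44 4 33003 n l) 800 row799 = true) := PLift.up <| by
  decide +kernel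

def c880 : PLift (adv 80 (fun n l => run 10 44 4 33177 n l) 800 row799 = true) := PLift.up <| by
  decide +kernel

def c884 : PLift (adv 84 (fun n l => run 10 44 4 33351 n l) 800 row799 = true) := PLift.up <| by
  decide +kernel

def c888 : PLift (adv 88 (fun n l => run 10 44 4 33525 n l) 800 row799 = true) := PLift.up <| by
  decide +kernel

def c892 : PLift (adv 92 (fun n l => run 10 44 4 33699 n l) 800 row799 = true) := PLift.up <| by
  decide +kernel

def c896 : PLift (adv 96 (fun n l => run 10 44 3 33873 n l) 800 row799 = true) := PLift.up <| by
  decide +kernel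

def c899 : PLift (adv 99 (fun n l => run 10 1 1 34004 n l) 800 row799 = true) := PLift.up <| by
  decide +kernel

end STK
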