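import Pool.Agent.Helper2.ST.K.R899

/-!
# MP_3942cb_co, block K: tests 900 <= n < 953
-/

namespace STK

def c900 : PLift (adv 0 (fun n l => run 10 44 6 34047 n l) 900 row899 = true) := PLift.up <| by
  decide +kernel

def c906 : PLift (adv 6 (fun n l => run 10 44 6 34309 n l) 900 row899 = true) := PLift.up <| by
  decide +kernel

def c912 : PLift (adv 12 (fun n l => run 10 44 5 34571 n l) 900 row899 = true) := PLift.up <| by
  decide +kernel

def c917 : PLift (adv 17 (fun n l => run 10 44 5 34789 n l) 900 row899 = true) := PLift.up <| by
  decide +kernel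

def c922 : PLift (adv 22 (fun n l => run 10 44 5 35008 n l) 900 row899 = true) := PLift.up <| by
  decide +kernel

def c927 : PLift (adv 27 (fun n l => run 10 44 5 35227 n l) 900 row899 = true) := PLift.up <| by
  decide +kernel

def c932 : PLift (adv 32 (fun n l => run 10 44 5 35446 n l) 900 row899 = true) := PLift.up <| by
  decide +kernel

def c937 : PLift (adv 37 (fun n l => run 10 44 4 35665 n l) 900 row899 = true) := PLift.up <| by
  decide +kernel

def c941 : PLift (adv 41 (fun n l => run 10 44 4 35840 n l) 900 row899 = true) := PLift.up <| by
  decide +kernel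

def c945 : PLift (adv 45 (fun n l => run 10 44 4 36016 n l) 900 row899 = true) := PLift.up <| by
  decide +kernel

def c949 : PLift (adv 49 (fun n l => run 10 44 4 36191 n l) 900 row899 = true) := PLift.up <| by
  decide +kernel

end STK
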