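import Pool.Agent.Helper2.ST.K.R899

/-!
# MP_3942cb_co, block K: tests 953 <= n < 988
-/

namespace STK

def c953 : PLift (adv 53 (fun n l => run 10 44 4 36367 n l) 900 row899 = true) := PLift.up <| by
  decide +kernel

def c957 : PLift (adv 57 (fun n l => run 10 44 4 36542 n l) 900 row899 = true) := PLift.up <| by
  decide +kernel

def c961 : PLift (adv 61 (fun n l => run 10 44 3 36718 n l) 900 row899 = true) := PLift.up <| by
  decide +kernel

def c964 : PLift (adv 64 (fun n l => run 10 44 3 36850 n l) 900 row899 = true) := PLift.up <| by
  decide +kernel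

def c967 : PLift (adv 67 (fun n l => run 10 44 3 36982 n l) 900 row899 = true) := PLift.up <| by
  decide +kernel

def c970 : PLift (adv 70 (fun n l => run 10 44 3 37114 n l) 900 row899 = true) := PLift.up <| by
  decide +kernel

def c973 : PLift (adv 73 (fun n l => run 10 45 3 37246 n l) 900 row899 = true) := PLift.up <| by
  decide +kernel

def c976 : PLift (adv 76 (fun n l => run 10 44 3 37379 n l) 900 row899 = true) := PLift.up <| by
  decide +kernel

def c979 : PLift (adv 79 (fun n l => run 10 44 3 37511 n l) 900 row899 = true) := PLift.up <| by
  decide +kernel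

def c982 : PLift (adv 82 (fun n l => run 10 44 3 37643 n l) 900 row899 = true) := PLift.up <| by
  decide +kernel

def c985 : PLift (adv 85 (fun n l => run 10 45 3 37775 n l) 900 row899 = true) := PLift.up <| by
  decide +kernel

end STK
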