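import Pool.Agent.Helper2.ST.K.R899

/-!
# MP_3942cb_co, block K: tests 988 <= n < 1000
-/

namespace STK

def c988 : PLift (adv 88 (fun n l => run 10 44 2 37908 n l) 900 row899 = true) := PLift.up <| by
  decide +kernel

def c990 : PLift (adv 90 (fun n l => run 10 44 2 37996 n l) 900 row899 = true) := PLift.up <| by
  decide +kernel

def c992 : PLift (adv 92 (fun n l => run 10 44 2 38084 n l) 900 row899 = true) := PLift.up <| by
  decide +kernel

def c994 : PLift (adv 94 (fun n l => run 10 44 2 38173 n l) 900 row899 = true) := PLift.up <| by
  decide +kernel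

def c996 : PLift (adv 96 (fun n l => run 10 44 2 38261 n l) 900 row899 = true) := PLift.up <| by
  decide +kernel

def c998 : PLift (adv 98 (fun n l => run 10 45 2 38349 n l) 900 row899 = true) := PLift.up <| by
  decide +kernel

end STK
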