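import Mathlib.Data.Nat.Basic

/-!
# MP_3942cb_co, block K: the program evaluated by the kernel

For `n < 1000` the induction step from `n - 1` to `n` needs that a certain integer polynomial `N`
has nonnegative coefficients. The program computes the rows of the third order Stirling subset
numbers, the value `N(2^m)` (with `m` so large that the coefficients can be read off), and tests
with one bit mask that all coefficients are nonnegative.

All functions are written with the recursors, and lazily (no evaluation of arguments before the
call), so that the kernel evaluates them fast.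
-/

namespace STK

/-- the next row, entries `b_k = k a_k + t_k a_(k-1)`; `t_(k+1) = t_k + c_k`, `c_(k+1) = c_k + 4` -/
noncomputable def nxt (l : List Nat) : Nat → Nat → Nat → Nat → List Nat :=
  List.rec (motive := fun _ => Nat → Nat → Nat → Nat → List Nat)
    (fun _ _ t p => [Nat.mul t p])
    (fun a _ ih k c t p => Nat.add (Nat.mul k a) (Nat.mul t p) ::
      ih (Nat.succ k) (Nat.add c 4) (Nat.add t c) a) l

/-- from row `n - 1` (entries `1, ..., n - 1`) to row `n` -/
noncomputable def next (n : Nat) (l : List Nat) : List Nat :=
  nxt l (Nat.div n n) (Nat.add (Nat.mul 2 n) 3) (Nat.div (Nat.mul (Nat.add n 1) n) 2) 0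

/-- one merging step: `[x0 + 2^w x1, x2 + 2^w x3, ...]`; `s` tells whether `p` is pending -/
noncomputable def mg (w : Nat) (l : List Nat) : Bool → Nat → List Nat :=
  List.rec (motive := fun _ => Bool → Nat → List Nat)
    (fun s p => Bool.rec (motive := fun _ => List Nat) [] [p] s)
    (fun a _ ih s p => Bool.rec (motive := fun _ => List Nat) (ih true a)
      (Nat.add p (Nat.shiftLeft a w) :: ih false 0) s) l

/-- plain Horner evaluation -/
noncomputable def hor (w : Nat) (l : List Nat) : Nat :=
  List.rec (motive := fun _ => Nat) 0 (fun a _ ih => Nat.add a (Nat.shiftLeft ih w)) l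

/-- `sum_i l_i 2^(w i)`, by `f` merging steps -/
noncomputable def pack (f : Nat) : Nat → List Nat → Nat :=
  Nat.rec (motive := fun _ => Nat → List Nat → Nat) hor
    (fun _ ih w l => ih (Nat.mul 2 w) (mg w l false 0)) f

/-- from the descending list `[d_0, d_1, ...]` the alternating value
`d_0 X^(L-1) - d_1 X^(L-2) + ...` with `X = 2^m`, by pairs -/
noncomputable def alt (m f : Nat) (l : List Nat) : Bool → Nat → List Nat → Nat :=
  List.rec (motive := fun _ => Bool → Nat → List Nat → Nat)
    (fun s p acc => Bool.rec (motive := fun _ => Nat) (pack f (Nat.mul 2 m) acc)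
      (Nat.add p (Nat.shiftLeft (pack f (Nat.mul 2 m) acc) m)) s)
    (fun a _ ih s p acc => Bool.rec (motive := fun _ => Nat) (ih true a acc)
      (ih false 0 (Nat.sub (Nat.shiftLeft p m) a :: acc)) s) l

/-- the mask with the bits `m i + m - 1`, `i < 2^j` -/
noncomputable def mask (m j : Nat) : Nat :=
  Nat.rec (motive := fun _ => Nat → Nat → Nat) (fun _ x => x)
    (fun _ ih w x => ih (Nat.mul 2 w) (Nat.lor x (Nat.shiftLeft x w))) j m (Nat.pow 2 (Nat.sub m 1))

/-- the test of the value `N` against the mask -/
noncomputable def tst (m f N : Nat) : Bool :=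
  and (Nat.ble 1 N) (Nat.beq (Nat.land N (mask m f)) 0)

/-- the final test; `z` is the bound of the coefficients -/
noncomputable def fin (n m f z : Nat) (U V P Q : List Nat) : Bool :=
  and (Nat.ble n (Nat.pow 2 f)) (and (Nat.beq (Nat.shiftRight z (Nat.sub m 1)) 0)
    (tst m f (Nat.add (Nat.mul (alt m f U false 0 []) (alt m f Q false 0 []))
      (Nat.mul (alt m f V false 0 []) (alt m f P false 0 [])))))

/-- the pass through the row; `a` is the entry `k`, `h = (2k+n)(2k+n+1) a`, `g = hp + 4 k a`
with `hp` the previous `h`; `q = (2k+n)(2k+n+1)`, `q' = q + e`, `e' = e + 8`;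
`sh`, `sg` are the sums of the `h` and of the `g` -/
noncomputable def pass (n m f : Nat) (l : List Nat) :
    Nat → Nat → Nat → Nat → Nat → Nat → List Nat → List Nat → List Nat → List Nat → Bool :=
  List.rec (motive := fun _ =>
      Nat → Nat → Nat → Nat → Nat → Nat → List Nat → List Nat → List Nat → List Nat → Bool)
    (fun _ _ _ hp sh sg U V P Q => fin n m f (Nat.mul sh (Nat.add sg hp)) U V (hp :: P) Q)
    (fun a _ ih k q e hp sh sg U V P Q =>
      ih (Nat.add k 4) (Nat.add q e) (Nat.add e 8) (Nat.mul q a) (Nat.add sh (Nat.mul q a))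
        (Nat.add sg (Nat.add hp (Nat.mul k a)))
        V (Nat.mul q a :: U) Q (Nat.add hp (Nat.mul k a) :: P)) l

/-- the test for `n`, on the row `n - 1` -/
noncomputable def wcheck (n m f : Nat) (l : List Nat) : Bool :=
  pass n m f l (Nat.mul 4 (Nat.div n n)) (Nat.mul (Nat.add n 2) (Nat.add n 3))
    (Nat.add (Nat.mul 4 n) 14) 0 0 0 [] [] [] []

/-- `t` tests, from `n` on; slot sizes `m, m + d, m + 2 d, ...` -/
noncomputable def run (f d : Nat) (t : Nat) : Nat → Nat → List Nat → Bool :=
  Nat.rec (motive := fun _ => Nat → Nat → List Nat → Bool) (fun _ _ _ => true)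
    (fun _ ih m n l => and (wcheck n m f l) (ih (Nat.add m d) (Nat.succ n) (next n l))) t

/-- `t` rows without test, then `f` -/
noncomputable def adv (t : Nat) (f : Nat → List Nat → Bool) : Nat → List Nat → Bool :=
  Nat.rec (motive := fun _ => Nat → List Nat → Bool) f
    (fun _ ih n l => ih (Nat.succ n) (next n l)) t

/-- equality of lists -/
noncomputable def eqL (l : List Nat) : List Nat → Bool :=
  List.rec (motive := fun _ => List Nat → Bool)
    (fun r => List.rec (motive := fun _ => Bool) true (fun _ _ _ => false) r)
    (fun a _ ih r => List.rec (motive := fun _ => Bool) false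
      (fun b r' _ => and (Nat.beq a b) (ih r')) r) l

end STK
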