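import Mathlib
import Pool.Agent.Helper2.ST.Defs
import Pool.Agent.Helper2.ST.K.Fast

/-!
# MP_3942cb_co, block K: meaning of the program of `Fast.lean`
-/

namespace STK

open ST3

/-! ### unfolding -/

theorem nxt_nil (k c t p : ℕ) : nxt [] k c t p = [t * p] := rfl

theorem nxt_cons (a : ℕ) (l : List ℕ) (k c t p : ℕ) :
    nxt (a :: l) k c t p = (k * a + t * p) :: nxt l (k + 1) (c + 4) (t + c) a := rfl

theorem mg_nil (w p : ℕ) : mg w [] true p = [p] := rfl

theorem mg_nil' (w p : ℕ) : mg w [] false p = [] := rfl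

theorem mg_cons (w a : ℕ) (l : List ℕ) (p : ℕ) :
    mg w (a :: l) true p = (p + a <<< w) :: mg w l false 0 := rfl

theorem mg_cons' (w a : ℕ) (l : List ℕ) (p : ℕ) :
    mg w (a :: l) false p = mg w l true a := rfl

theorem hor_nil (w : ℕ) : hor w [] = 0 := rfl

theorem hor_cons (w a : ℕ) (l : List ℕ) : hor w (a :: l) = a + (hor w l) <<< w := rfl

theorem pack_zero (w : ℕ) (l : List ℕ) : pack 0 w l = hor w l := rfl

theorem pack_succ (f w : ℕ) (l : List ℕ) : pack (f + 1) w l = pack f (2 * w) (mg w l false 0) := rfl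

theorem alt_nil (m f p : ℕ) (acc : List ℕ) :
    alt m f [] true p acc = p + (pack f (2 * m) acc) <<< m := rfl

theorem alt_nil' (m f p : ℕ) (acc : List ℕ) : alt m f [] false p acc = pack f (2 * m) acc := rfl

theorem alt_cons (m f a : ℕ) (l : List ℕ) (p : ℕ) (acc : List ℕ) :
    alt m f (a :: l) true p acc = alt m f l false 0 ((p <<< m - a) :: acc) := rfl

theorem alt_cons' (m f a : ℕ) (l : List ℕ) (p : ℕ) (acc : List ℕ) :
    alt m f (a :: l) false p acc = alt m f l true a acc := rfl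

/-! ### packing -/

theorem hor_mg (w : ℕ) (l : List ℕ) :
    (hor (2 * w) (mg w l false 0) = hor w l) ∧
      ∀ p, hor (2 * w) (mg w l true p) = p + 2 ^ w * hor w l := by
  induction l with
  | nil =>
    refine ⟨rfl, fun p => ?_⟩
    rw [mg_nil, hor_cons, hor_nil, hor_nil]
    simp
  | cons a l ih =>
    constructor
    · rw [mg_cons', ih.2, hor_cons, Nat.shiftLeft_eq, mul_comm]
    · intro p
      rw [mg_cons, hor_cons, ih.1, hor_cons, Nat.shiftLeft_eq, Nat.shiftLeft_eq, Nat.shiftLeft_eq,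
        two_mul, pow_add]
      ring

theorem pack_eq (f : ℕ) : ∀ (w : ℕ) (l : List ℕ), pack f w l = hor w l := by
  induction f with
  | zero => intro w l; rfl
  | succ f ih => intro w l; rw [pack_succ, ih, (hor_mg w l).1]

/-! ### the alternating value -/

/-- the alternating sum of a descending list, positive sign at the top -/
def DD {R : Type*} [CommRing R] (z : R) : List ℕ → R
  | [] => 0
  | a :: r => (a : R) * z ^ r.length - DD z r

theorem alt_eq (m f : ℕ) (l : List ℕ) :
    (∀ a ∈ l, 1 ≤ a ∧ a ≤ 2 ^ m) →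
    (∀ (q : ℕ) (acc : List ℕ), ((alt m f l false q acc : ℕ) : ℤ) =
      (hor (2 * m) acc : ℤ) * (2 ^ m) ^ l.length + DD ((2 : ℤ) ^ m) l) ∧
    ∀ (p : ℕ) (acc : List ℕ), 1 ≤ p → ((alt m f l true p acc : ℕ) : ℤ) =
      (hor (2 * m) acc : ℤ) * (2 ^ m) ^ (l.length + 1) + p * (2 ^ m) ^ l.length
        - DD ((2 : ℤ) ^ m) l := by
  induction l with
  | nil =>
    intro _
    constructor
    · intro q acc
      rw [alt_nil', pack_eq]
      simp [DD]
    · intro p acc _
      rw [alt_nil, pack_eq, Nat.shiftLeft_eq]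
      simp only [List.length_nil, DD]
      push_cast
      ring
  | cons a l ih =>
    intro h
    have hl : ∀ b ∈ l, 1 ≤ b ∧ b ≤ 2 ^ m := fun b hb => h b (List.mem_cons_of_mem a hb)
    have ha := h a List.mem_cons_self
    obtain ⟨ih1, ih2⟩ := ih hl
    constructor
    · intro q acc
      rw [alt_cons', ih2 a acc ha.1]
      simp only [List.length_cons, DD]
      ring
    · intro p acc hp
      rw [alt_cons, ih1, hor_cons, Nat.shiftLeft_eq, Nat.shiftLeft_eq]
      simp only [List.length_cons, DD]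
      have hle : a ≤ p * 2 ^ m := le_trans ha.2 (Nat.le_mul_of_pos_left _ hp)
      rw [Nat.cast_add, Nat.cast_sub hle]
      push_cast
      rw [two_mul, pow_add]
      ring

/-! ### the mask -/

theorem mask_aux (m : ℕ) (j : ℕ) : ∀ (s w x : ℕ), w = m * 2 ^ s →
    (∀ i < 2 ^ s, x.testBit (m * i + (m - 1)) = true) →
    ∀ i < 2 ^ (s + j), (Nat.rec (motive := fun _ => ℕ → ℕ → ℕ) (fun _ x => x)
      (fun _ ih w x => ih (Nat.mul 2 w) (Nat.lor x (Nat.shiftLeft x w))) j w x :
        ℕ).testBit (m * i + (m - 1)) = true := by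
  induction j with
  | zero =>
    intro s w x _ hx i hi
    exact hx i (by simpa using hi)
  | succ j ih =>
    intro s w x hw hx i hi
    refine ih (s + 1) (2 * w) (x ||| x <<< w) (by rw [hw, pow_succ]; ring) ?_ i
      (by rwa [show s + 1 + j = s + (j + 1) by ring])
    intro i hi
    rw [Nat.testBit_or, Nat.testBit_shiftLeft]
    by_cases h : i < 2 ^ s
    · rw [hx i h, Bool.true_or]
    · have h1 : 2 ^ s ≤ i := not_lt.1 h
      have h2 : w ≤ m * i + (m - 1) := by
        rw [hw]; exact le_trans (Nat.mul_le_mul_left m h1) (Nat.le_add_right _ _)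
      have h3 : m * i + (m - 1) - w = m * (i - 2 ^ s) + (m - 1) := by
        rw [hw, Nat.mul_sub]
        have := Nat.mul_le_mul_left m h1
        omega
      rw [h3, hx (i - 2 ^ s) (by rw [pow_succ] at hi; omega)]
      simp [h2]

theorem mask_testBit (m j : ℕ) (i : ℕ) (hi : i < 2 ^ j) :
    (mask m j).testBit (m * i + (m - 1)) = true := by
  refine mask_aux m j 0 m (2 ^ (m - 1)) (by simp) ?_ i (by simpa using hi)
  intro i hi
  have : i = 0 := by simpa using hi
  rw [this]
  simp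

/-! ### reading the coefficients -/

open Polynomial

theorem coeff_nonneg (m : ℕ) (hm : 1 ≤ m) (j : ℕ) : ∀ (p : ℤ[X]) (N : ℕ),
    (∀ i, |p.coeff i| < 2 ^ (m - 1)) → p.eval ((2 : ℤ) ^ m) = (N : ℤ) →
    (∀ i < j, N.testBit (m * i + (m - 1)) = false) → ∀ i < j, 0 ≤ p.coeff i := by
  induction j with
  | zero => intro p N _ _ _ i hi; omega
  | succ j ih =>
    intro p N hc he hb
    have h1 : p.eval ((2 : ℤ) ^ m) = p.divX.eval ((2 : ℤ) ^ m) * 2 ^ m + p.coeff 0 := by
      conv_lhs => rw [← Polynomial.divX_mul_X_add p]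
      simp
    have hm2 : (2 : ℤ) ^ m = 2 * 2 ^ (m - 1) := by
      rw [← pow_succ']; congr 1; omega
    have hN : N % 2 ^ m < 2 ^ (m - 1) := by
      have h0 := hb 0 (Nat.succ_pos j)
      rw [mul_zero, zero_add, Nat.testBit_eq_decide_div_mod_eq, decide_eq_false_iff_not] at h0
      have h2 : N / 2 ^ (m - 1) % 2 = 0 := by omega
      have h3 : 2 ^ m = 2 ^ (m - 1) * 2 := by rw [← pow_succ]; congr 1; omega
      rw [h3, Nat.mod_mul, h2, mul_zero, add_zero]
      exact Nat.mod_lt _ (by positivity)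
    have hc0 := hc 0
    rw [abs_lt] at hc0
    have hNz : ((N % 2 ^ m : ℕ) : ℤ) = (N : ℤ) % 2 ^ m := by push_cast; rfl
    have hNd : ((N / 2 ^ m : ℕ) : ℤ) = (N : ℤ) / 2 ^ m := by push_cast; rfl
    have hc0' : 0 ≤ p.coeff 0 := by
      by_contra hneg
      have hneg' : p.coeff 0 < 0 := not_le.1 hneg
      have h4 : (N : ℤ) % 2 ^ m = p.coeff 0 + 2 ^ m := by
        rw [← he, h1]
        rw [show p.divX.eval ((2 : ℤ) ^ m) * 2 ^ m + p.coeff 0 =
          (p.coeff 0 + 2 ^ m) + (p.divX.eval ((2 : ℤ) ^ m) - 1) * 2 ^ m by ring]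
        rw [Int.add_mul_emod_self_right]
        exact Int.emod_eq_of_lt (by linarith [hc0.1]) (by linarith)
      have h5 : (N : ℤ) % 2 ^ m < 2 ^ (m - 1) := by
        rw [← hNz]; exact_mod_cast hN
      linarith [hc0.1]
    have h6 : p.divX.eval ((2 : ℤ) ^ m) = ((N / 2 ^ m : ℕ) : ℤ) := by
      rw [hNd, ← he, h1, add_comm, Int.add_mul_ediv_right _ _ (by positivity),
        Int.ediv_eq_zero_of_lt hc0' (by linarith [hc0.2]), zero_add]
    have h7 := ih p.divX (N / 2 ^ m) (fun i => by rw [Polynomial.coeff_divX]; exact hc _) h6 (by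
      intro i hi
      rw [Nat.testBit_div_two_pow]
      have := hb (i + 1) (by omega)
      rwa [show m * (i + 1) + (m - 1) = m * i + (m - 1) + m by ring] at this)
    intro i hi
    rcases i with _ | i
    · exact hc0'
    · have := h7 i (by omega)
      rwa [Polynomial.coeff_divX] at this

/-! ### coefficients of the alternating polynomial -/

theorem DD_map {R S : Type*} [CommRing R] [CommRing S] (φ : R →+* S) (z : R) (l : List ℕ) :
    φ (DD z l) = DD (φ z) l := by
  induction l with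
  | nil => simp [DD]
  | cons a l ih => simp [DD, ih]

theorem DD_mul_coeff (q : ℤ[X]) (B : ℤ) (hB : ∀ i, |q.coeff i| ≤ B) (l : List ℕ) :
    ∀ i, |(DD (X : ℤ[X]) l * q).coeff i| ≤ (l.sum : ℤ) * B := by
  have hB0 : 0 ≤ B := le_trans (abs_nonneg _) (hB 0)
  induction l with
  | nil => intro i; simp [DD]
  | cons a l ih =>
    intro i
    have h1 : DD (X : ℤ[X]) (a :: l) * q = (C (a : ℤ)) * (X ^ l.length * q) -
        DD (X : ℤ[X]) l * q := by
      simp only [DD]
      rw [show ((a : ℕ) : ℤ[X]) = C (a : ℤ) by simp]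
      ring
    rw [h1, Polynomial.coeff_sub, Polynomial.coeff_C_mul, Polynomial.coeff_X_pow_mul']
    have h2 : |(a : ℤ) * (if l.length ≤ i then q.coeff (i - l.length) else 0)| ≤ a * B := by
      rw [abs_mul, abs_of_nonneg (by positivity : (0 : ℤ) ≤ (a : ℤ))]
      refine mul_le_mul_of_nonneg_left ?_ (by positivity)
      split_ifs
      · exact hB _
      · simpa using hB0
    calc _ ≤ |(a : ℤ) * (if l.length ≤ i then q.coeff (i - l.length) else 0)| +
          |(DD (X : ℤ[X]) l * q).coeff i| := abs_sub _ _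
      _ ≤ a * B + (l.sum : ℤ) * B := add_le_add h2 (ih i)
      _ = _ := by rw [List.sum_cons]; push_cast; ring

theorem DD_coeff (l : List ℕ) : ∀ i, |(DD (X : ℤ[X]) l).coeff i| ≤ (l.sum : ℤ) := by
  intro i
  have := DD_mul_coeff 1 1 (fun i => by
    rw [Polynomial.coeff_one]; split_ifs <;> simp) l i
  simpa using this

theorem DD_mul_zero (q : ℤ[X]) (b : ℕ) (hq : ∀ i, b ≤ i → q.coeff i = 0) (l : List ℕ) :
    ∀ i, l.length + b ≤ i → (DD (X : ℤ[X]) l * q).coeff i = 0 := by
  induction l with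
  | nil => intro i _; simp [DD]
  | cons a l ih =>
    intro i hi
    rw [List.length_cons] at hi
    have h1 : DD (X : ℤ[X]) (a :: l) * q = (C (a : ℤ)) * (X ^ l.length * q) -
        DD (X : ℤ[X]) l * q := by
      simp only [DD]
      rw [show ((a : ℕ) : ℤ[X]) = C (a : ℤ) by simp]
      ring
    rw [h1, Polynomial.coeff_sub, Polynomial.coeff_C_mul, Polynomial.coeff_X_pow_mul',
      ih i (by omega), if_pos (by omega), hq _ (by omega)]
    simp

theorem DD_zero (l : List ℕ) : ∀ i, l.length ≤ i → (DD (X : ℤ[X]) l).coeff i = 0 := by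
  induction l with
  | nil => intro i _; simp [DD]
  | cons a l ih =>
    intro i hi
    rw [List.length_cons] at hi
    have h1 : DD (X : ℤ[X]) (a :: l) = (C (a : ℤ)) * X ^ l.length - DD (X : ℤ[X]) l := by
      simp only [DD]
      rw [show ((a : ℕ) : ℤ[X]) = C (a : ℤ) by simp]
    rw [h1, Polynomial.coeff_sub, Polynomial.coeff_C_mul, Polynomial.coeff_X_pow,
      ih i (by omega), if_neg (by omega)]
    simp

/-- the value tested -/
noncomputable def NN {R : Type*} [CommRing R] (z : R) (U V P Q : List ℕ) : R :=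
  DD z U * DD z Q + DD z V * DD z P

theorem fin_pos (n m f z : ℕ) (U V P Q : List ℕ) (hz : (U.sum + V.sum) * (P.sum + Q.sum) ≤ z)
    (hU : ∀ a ∈ U, 1 ≤ a) (hV : ∀ a ∈ V, 1 ≤ a) (hP : ∀ a ∈ P, 1 ≤ a) (hQ : ∀ a ∈ Q, 1 ≤ a)
    (hUV : 1 ≤ U.sum + V.sum) (hPQ : 1 ≤ P.sum + Q.sum)
    (h1 : U.length + Q.length ≤ n) (h2 : V.length + P.length ≤ n)
    (h : fin n m f z U V P Q = true) (y : ℝ) (hy : 0 < y) : 0 < NN y U V P Q := by
  have h0 : n ≤ 2 ^ f ∧ z >>> (m - 1) = 0 ∧ 1 ≤ alt m f U false 0 [] * alt m f Q false 0 [] +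
      alt m f V false 0 [] * alt m f P false 0 [] ∧
      (alt m f U false 0 [] * alt m f Q false 0 [] +
      alt m f V false 0 [] * alt m f P false 0 []) &&& (mask m f) = 0 := by
    simp only [fin, tst, Bool.and_eq_true] at h
    exact ⟨Nat.le_of_ble_eq_true h.1, Nat.eq_of_beq_eq_true h.2.1,
      Nat.le_of_ble_eq_true h.2.2.1, Nat.eq_of_beq_eq_true h.2.2.2⟩
  obtain ⟨hf, hzm, hN1, hN2⟩ := h0
  set N := alt m f U false 0 [] * alt m f Q false 0 [] +
      alt m f V false 0 [] * alt m f P false 0 [] with hNdef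
  have hz2 : z < 2 ^ (m - 1) := by
    rw [Nat.shiftRight_eq_div_pow] at hzm
    rcases Nat.div_eq_zero_iff.1 hzm with h | h
    · exact absurd h (by positivity)
    · exact h
  have hz1 : 1 ≤ z := le_trans (Nat.mul_le_mul hUV hPQ) hz
  have hm : 1 ≤ m := by
    by_contra hm
    have : m = 0 := by omega
    rw [this] at hz2
    simp at hz2
    omega
  have hb1 : U.sum + V.sum ≤ 2 ^ m := by
    have := Nat.le_mul_of_pos_right (U.sum + V.sum) hPQ
    have h3 : 2 ^ (m - 1) ≤ 2 ^ m := Nat.pow_le_pow_right (by norm_num) (by omega)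
    omega
  have hb2 : P.sum + Q.sum ≤ 2 ^ m := by
    have := Nat.le_mul_of_pos_left (P.sum + Q.sum) hUV
    have h3 : 2 ^ (m - 1) ≤ 2 ^ m := Nat.pow_le_pow_right (by norm_num) (by omega)
    omega
  have key : ∀ l : List ℕ, (∀ a ∈ l, 1 ≤ a) → l.sum ≤ 2 ^ m →
      ((alt m f l false 0 [] : ℕ) : ℤ) = DD ((2 : ℤ) ^ m) l := by
    intro l hl hs
    have := (alt_eq m f l (fun a ha => ⟨hl a ha, le_trans (List.le_sum_of_mem ha) hs⟩)).1 0 []
    rw [this, hor_nil]
    simp
  have hNval : (NN (X : ℤ[X]) U V P Q).eval ((2 : ℤ) ^ m) = (N : ℤ) := by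
    have e1 : ∀ l : List ℕ, (DD (X : ℤ[X]) l).eval ((2 : ℤ) ^ m) = DD ((2 : ℤ) ^ m) l := by
      intro l
      have := DD_map (Polynomial.evalRingHom ((2 : ℤ) ^ m)) X l
      simpa using this
    rw [NN, Polynomial.eval_add, Polynomial.eval_mul, Polynomial.eval_mul, e1, e1, e1, e1, hNdef]
    push_cast
    rw [key U hU (by omega), key Q hQ (by omega), key V hV (by omega), key P hP (by omega)]
  have hcoef : ∀ i, |(NN (X : ℤ[X]) U V P Q).coeff i| < 2 ^ (m - 1) := by
    intro i
    rw [NN, Polynomial.coeff_add]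
    have a1 := DD_mul_coeff (DD X Q) _ (DD_coeff Q) U i
    have a2 := DD_mul_coeff (DD X P) _ (DD_coeff P) V i
    have a3 : ((U.sum : ℤ) * Q.sum + V.sum * P.sum) ≤ ((U.sum + V.sum) * (P.sum + Q.sum) : ℕ) := by
      rw [Nat.cast_mul, Nat.cast_add, Nat.cast_add]
      have : (0 : ℤ) ≤ U.sum * P.sum + V.sum * Q.sum := by positivity
      linarith [this]
    have a4 : (((U.sum + V.sum) * (P.sum + Q.sum) : ℕ) : ℤ) < 2 ^ (m - 1) := by
      exact_mod_cast lt_of_le_of_lt hz hz2
    calc _ ≤ _ := abs_add_le _ _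
      _ ≤ (U.sum : ℤ) * Q.sum + V.sum * P.sum := add_le_add a1 a2
      _ < _ := lt_of_le_of_lt a3 a4
  have hbits : ∀ i < 2 ^ f, N.testBit (m * i + (m - 1)) = false := by
    intro i hi
    have := mask_testBit m f i hi
    have h5 : (N &&& mask m f).testBit (m * i + (m - 1)) = false := by rw [hN2]; simp
    rw [Nat.testBit_and, this, Bool.and_true] at h5
    exact h5
  have hnn := coeff_nonneg m hm (2 ^ f) _ N hcoef hNval hbits
  have hall : ∀ i, 0 ≤ (NN (X : ℤ[X]) U V P Q).coeff i := by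
    intro i
    by_cases hi : i < 2 ^ f
    · exact hnn i hi
    · rw [NN, Polynomial.coeff_add,
        DD_mul_zero _ _ (DD_zero Q) U i (by omega), DD_mul_zero _ _ (DD_zero P) V i (by omega)]
      simp
  have hne : NN (X : ℤ[X]) U V P Q ≠ 0 := by
    intro h0
    rw [h0] at hNval
    simp at hNval
    omega
  have hmap : NN y U V P Q = (NN (X : ℤ[X]) U V P Q).eval₂ (Int.castRingHom ℝ) y := by
    have e1 : ∀ l : List ℕ, DD y l = (DD (X : ℤ[X]) l).eval₂ (Int.castRingHom ℝ) y := by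
      intro l
      have := DD_map (Polynomial.eval₂RingHom (Int.castRingHom ℝ) y) X l
      rw [Polynomial.coe_eval₂RingHom] at this
      rw [this, Polynomial.eval₂_X]
    rw [NN, NN, Polynomial.eval₂_add, Polynomial.eval₂_mul, Polynomial.eval₂_mul, e1, e1, e1, e1]
  rw [hmap, Polynomial.eval₂_eq_sum, Polynomial.sum_def]
  obtain ⟨i, hi⟩ := Polynomial.nonempty_support_iff.2 hne
  refine Finset.sum_pos (fun i hi => ?_) ⟨i, hi⟩
  have h6 : 0 < (NN (X : ℤ[X]) U V P Q).coeff i :=
    lt_of_le_of_ne (hall i) (Ne.symm (Polynomial.mem_support_iff.1 hi))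
  have h7 : (0 : ℝ) < (((NN (X : ℤ[X]) U V P Q).coeff i : ℤ) : ℝ) := by exact_mod_cast h6
  rw [eq_intCast]
  positivity

end STK
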