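import Mathlib
import Pool.Agent.Helper2.ST.K.Sem

/-!
# MP_3942cb_co, block K: rows, the pass, and the meaning of the test
-/

namespace STK

open ST3

/-- entries `1, ..., K` of row `K` -/
def rowL (K : ℕ) : List ℕ := (List.range' 1 K).map (S3 K)

theorem S3_zero_of_lt (n : ℕ) : ∀ k, n < k → S3 n k = 0 := by
  induction n with
  | zero => intro k hk; obtain ⟨k, rfl⟩ := Nat.exists_eq_succ_of_ne_zero (by omega : k ≠ 0); rfl
  | succ n ih =>
    intro k hk
    obtain ⟨k, rfl⟩ := Nat.exists_eq_succ_of_ne_zero (by omega : k ≠ 0)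
    rw [Nat.succ_eq_add_one, S3, ih (k + 1) (by omega), ih k (by omega)]
    simp

theorem S3_succ_zero (n : ℕ) : S3 (n + 1) 0 = 0 := rfl

theorem S3_pos (n : ℕ) : ∀ k, 1 ≤ k → k ≤ n → 0 < S3 n k := by
  induction n with
  | zero => intro k h1 h2; omega
  | succ n ih =>
    intro k h1 h2
    obtain ⟨k, rfl⟩ := Nat.exists_eq_succ_of_ne_zero (by omega : k ≠ 0)
    rw [Nat.succ_eq_add_one, S3]
    by_cases hk : k = 0
    · subst hk
      rcases n with _ | n
      · simp [S3]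
      · have := ih 1 le_rfl (by omega)
        simp only [zero_add, one_mul] at *
        omega
    · have h3 := ih k (by omega) (by omega)
      have h4 : 0 < (n + 2 * k + 2).choose 2 := Nat.choose_pos (by omega)
      positivity

theorem choose_two_eq (m : ℕ) : (m + 2).choose 2 * 2 = (m + 2) * (m + 1) := by
  have := Nat.triangle_succ (m + 1)
  rw [Nat.choose_two_right]
  have h : 2 ∣ (m + 2) * (m + 1) := by
    rw [mul_comm]
    exact (Nat.even_mul_succ_self (m + 1)).two_dvd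
  rw [show m + 2 - 1 = m + 1 by omega]
  exact Nat.div_mul_cancel h

theorem nxt_eq (n : ℕ) (j : ℕ) : ∀ (k c t p : ℕ), 1 ≤ k → n < k + j →
    c = 2 * (n + 1) + 4 * k - 1 → t = (n + 2 * k).choose 2 → p = S3 n (k - 1) →
    nxt ((List.range' k j).map (S3 n)) k c t p = (List.range' k (j + 1)).map (S3 (n + 1)) := by
  induction j with
  | zero =>
    intro k c t p hk hn hc ht hp
    obtain ⟨k, rfl⟩ := Nat.exists_eq_succ_of_ne_zero (by omega : k ≠ 0)
    simp only [List.range'_zero, List.map_nil, nxt_nil, zero_add, List.range'_one, List.map_cons]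
    rw [Nat.succ_eq_add_one, S3, S3_zero_of_lt n (k + 1) (by omega), ht, hp]
    simp [mul_add, add_assoc]
  | succ j ih =>
    intro k c t p hk hn hc ht hp
    rw [List.range'_succ (n := j + 1), List.range'_succ (n := j)]
    simp only [List.map_cons]
    rw [nxt_cons, ih (k + 1) (c + 4) (t + c) (S3 n k) (by omega) (by omega) (by omega) ?_ (by simp)]
    · congr 1
      obtain ⟨k, rfl⟩ := Nat.exists_eq_succ_of_ne_zero (by omega : k ≠ 0)
      rw [Nat.succ_eq_add_one, S3, ht, hp]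
      simp [mul_add, add_assoc]
    · obtain ⟨k, rfl⟩ := Nat.exists_eq_succ_of_ne_zero (by omega : k ≠ 0)
      have e1 := choose_two_eq (n + 2 * k)
      have e2 := choose_two_eq (n + 2 * k + 2)
      rw [show n + 2 * (k.succ + 1) = n + 2 * k + 2 + 2 by omega, ht, hc,
        show n + 2 * k.succ = n + 2 * k + 2 by omega]
      have e3 : 2 * (n + 1) + 4 * k.succ - 1 = 2 * n + 4 * k + 5 := by omega
      rw [e3]
      nlinarith [e1, e2]

theorem div_one (K : ℕ) : Nat.div (K + 1) (K + 1) = 1 := Nat.div_self (Nat.succ_pos K)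

theorem next_rowL (K : ℕ) (hK : 1 ≤ K) : next (K + 1) (rowL K) = rowL (K + 1) := by
  have h0 : next (K + 1) (rowL K) =
      nxt (rowL K) (Nat.div (K + 1) (K + 1)) (2 * (K + 1) + 3) ((K + 1 + 1) * (K + 1) / 2) 0 := rfl
  rw [h0, div_one]
  refine nxt_eq K K 1 _ _ 0 le_rfl (by omega) (by omega) ?_ ?_
  · have := choose_two_eq K
    rw [show K + 2 * 1 = K + 2 by omega]
    omega
  · rcases K with _ | K
    · omega
    · rfl

/-! ### the invariant of the pass -/

/-- the polynomial value `F` after `k` entries, in terms of the two lists; `x^2 = - z` -/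
def Inv (x : ℂ) (z : ℝ) (F : ℂ) (k : ℕ) (U V : List ℕ) : Prop :=
  (∃ i, k = 2 * i ∧ U.length = i ∧ V.length = i ∧
    F = -(-1) ^ i * (x * ((DD z U : ℝ) : ℂ) + x ^ 2 * ((DD z V : ℝ) : ℂ))) ∨
  (∃ i, k = 2 * i + 1 ∧ U.length = i ∧ V.length = i + 1 ∧
    F = (-1) ^ i * (x * ((DD z V : ℝ) : ℂ) - x ^ 2 * ((DD z U : ℝ) : ℂ)))

theorem Inv.push {x : ℂ} {z : ℝ} {F : ℂ} {k : ℕ} {U V : List ℕ} (h : Inv x z F k U V)
    (hx : x ^ 2 = -(z : ℂ)) (a : ℕ) : Inv x z (F + a * x ^ (k + 1)) (k + 1) V (a :: U) := by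
  rcases h with ⟨i, hk, hU, hV, hF⟩ | ⟨i, hk, hU, hV, hF⟩
  · refine Or.inr ⟨i, by omega, hV, by simp [hU], ?_⟩
    rw [hF]
    simp only [DD]
    rw [hU, hk]
    push_cast
    rw [pow_succ x (2 * i), pow_mul, hx, neg_pow (z : ℂ) i]
    ring
  · refine Or.inl ⟨i + 1, by omega, hV, by simp [hU], ?_⟩
    rw [hF]
    simp only [DD]
    rw [hU, hk]
    push_cast
    rw [show 2 * i + 1 + 1 = 2 * (i + 1) by ring, pow_mul, hx, pow_succ (-1 : ℂ) i,
      pow_succ (-(z : ℂ)) i, neg_pow (z : ℂ) i]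
    ring

theorem re_formula {y z : ℝ} (hz : z = y ^ 2) {F G : ℂ} {k : ℕ} {U V P Q : List ℕ}
    (h1 : Inv (Complex.I * y) z F k U V) (h2 : Inv (Complex.I * y) z G (k + 1) Q P) :
    ((starRingEnd ℂ) (Complex.I * y * F) * G).re = z ^ 2 * NN z U V P Q := by
  rcases h1 with ⟨i, hk, hU, hV, hF⟩ | ⟨i, hk, hU, hV, hF⟩ <;>
  rcases h2 with ⟨i', hk', hU', hV', hG⟩ | ⟨i', hk', hU', hV', hG⟩
  · omega
  · have hi : i' = i := by omega
    subst hi
    rw [hF, hG, NN, hz]
    rcases neg_one_pow_eq_or ℂ i' with h | h <;> rw [h] <;>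
    simp [pow_two, Complex.mul_re, Complex.mul_im, Complex.add_re, Complex.add_im] <;> ring
  · have hi : i' = i + 1 := by omega
    subst hi
    rw [hF, hG, NN, hz, pow_succ (-1 : ℂ) i]
    rcases neg_one_pow_eq_or ℂ i with h | h <;> rw [h] <;>
    simp [pow_two, Complex.mul_re, Complex.mul_im, Complex.add_re, Complex.add_im] <;> ring
  · omega

/-- the coefficients of `h` -/
def hk (K k : ℕ) : ℕ := (2 * k + K + 1) * (2 * k + K + 2) * S3 K k

/-- the coefficients of `4 f + x h` -/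
def gk (K k : ℕ) : ℕ := hk K (k - 1) + 4 * k * S3 K k

theorem pass_eq (K m f : ℕ) (hK : 1 ≤ K) (y : ℝ) (hy : y ≠ 0) (j : ℕ) :
    ∀ (κ k q e hp sh sg : ℕ) (U V P Q : List ℕ) (F G : ℂ), κ + j = K → k = 4 * (κ + 1) →
    q = (2 * (κ + 1) + (K + 1)) * (2 * (κ + 1) + (K + 1) + 1) →
    e = 4 * (2 * (κ + 1) + (K + 1)) + 6 → hp = hk K κ → U.sum + V.sum = sh → P.sum + Q.sum = sg →
    hp ≤ sh → (∀ a ∈ U, 1 ≤ a) → (∀ a ∈ V, 1 ≤ a) → (∀ a ∈ P, 1 ≤ a) → (∀ a ∈ Q, 1 ≤ a) →
    Inv (Complex.I * y) (y ^ 2) F κ U V → Inv (Complex.I * y) (y ^ 2) G κ P Q →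
    F = ∑ i ∈ Finset.range κ, (hk K (i + 1) : ℂ) * (Complex.I * y) ^ (i + 1) →
    G = ∑ i ∈ Finset.range κ, (gk K (i + 1) : ℂ) * (Complex.I * y) ^ (i + 1) →
    pass (K + 1) m f ((List.range' (κ + 1) j).map (S3 K)) k q e hp sh sg U V P Q = true →
    0 < ((starRingEnd ℂ) (Complex.I * y *
      (∑ i ∈ Finset.range K, (hk K (i + 1) : ℂ) * (Complex.I * y) ^ (i + 1))) *
      ((∑ i ∈ Finset.range K, (gk K (i + 1) : ℂ) * (Complex.I * y) ^ (i + 1)) +
        (hk K K : ℂ) * (Complex.I * y) ^ (K + 1))).re := by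
  have hx : (Complex.I * (y : ℂ)) ^ 2 = -((y ^ 2 : ℝ) : ℂ) := by
    rw [mul_pow, Complex.I_sq]; push_cast; ring
  induction j with
  | zero =>
    intro κ k q e hp sh sg U V P Q F G hκ hk0 hq he hhp hsh hsg hle hU hV hP hQ iF iG eF eG h
    have hκ' : κ = K := by omega
    subst hκ'
    have h' : fin (κ + 1) m f (sh * (sg + hp)) U V (hp :: P) Q = true := h
    have hp1 : 1 ≤ hp := by
      rw [hhp, hk]
      have := S3_pos κ κ hK le_rfl
      exact Nat.mul_pos (by positivity) this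
    have iG' := iG.push hx hp
    have hpos := fin_pos (κ + 1) m f (sh * (sg + hp)) U V (hp :: P) Q
      (by rw [hsh, List.sum_cons, ← hsg]; apply le_of_eq; ring) hU hV
      (by
        intro a ha
        rcases List.mem_cons.1 ha with h | h
        · omega
        · exact hP a h) hQ (by omega) (by rw [List.sum_cons]; omega)
      (by
        rcases iF with ⟨i, h1, h2, h3, -⟩ | ⟨i, h1, h2, h3, -⟩ <;>
        rcases iG with ⟨i', h1', h2', h3', -⟩ | ⟨i', h1', h2', h3', -⟩ <;> omega)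
      (by
        rw [List.length_cons]
        rcases iF with ⟨i, h1, h2, h3, -⟩ | ⟨i, h1, h2, h3, -⟩ <;>
        rcases iG with ⟨i', h1', h2', h3', -⟩ | ⟨i', h1', h2', h3', -⟩ <;> omega) h' (y ^ 2)
      (by positivity)
    have := re_formula rfl iF iG'
    rw [← eF, ← eG, ← hhp, this]
    positivity
  | succ j ih =>
    intro κ k q e hp sh sg U V P Q F G hκ hk0 hq he hhp hsh hsg hle hU hV hP hQ iF iG eF eG h
    rw [List.range'_succ, List.map_cons] at h
    have h' : pass (K + 1) m f ((List.range' (κ + 1 + 1) j).map (S3 K)) (k + 4) (q + e) (e + 8)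
      (q * S3 K (κ + 1)) (sh + q * S3 K (κ + 1)) (sg + (hp + k * S3 K (κ + 1))) V
      (q * S3 K (κ + 1) :: U) Q ((hp + k * S3 K (κ + 1)) :: P) = true := h
    have hqk : q * S3 K (κ + 1) = hk K (κ + 1) := by
      rw [hk, hq]; ring_nf
    have hgk : hp + k * S3 K (κ + 1) = gk K (κ + 1) := by
      rw [gk, hhp, hk0, Nat.add_sub_cancel]
    have hS := S3_pos K (κ + 1) (by omega) (by omega)
    have hq1 : 1 ≤ q := by rw [hq]; exact Nat.succ_le_of_lt (by positivity)
    have hk1 : 1 ≤ k := by omega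
    have p1 : 1 ≤ q * S3 K (κ + 1) := Nat.mul_pos hq1 hS
    have p2 : 1 ≤ k * S3 K (κ + 1) := Nat.mul_pos hk1 hS
    refine ih (κ + 1) (k + 4) (q + e) (e + 8) _ _ _ _ _ _ _
      (F + ((q * S3 K (κ + 1) : ℕ) : ℂ) * (Complex.I * y) ^ (κ + 1))
      (G + ((hp + k * S3 K (κ + 1) : ℕ) : ℂ) * (Complex.I * y) ^ (κ + 1))
      (by omega) (by omega) ?_ (by omega) hqk ?_ ?_ ?_ hV ?_ hQ ?_
      (iF.push hx _) (iG.push hx _) ?_ ?_ h'
    · rw [hq, he]; ring
    · rw [List.sum_cons, ← hsh]; ring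
    · rw [List.sum_cons, ← hsg]; ring
    · omega
    · intro a ha
      rcases List.mem_cons.1 ha with h | h
      · omega
      · exact hU a h
    · intro a ha
      rcases List.mem_cons.1 ha with h | h
      · omega
      · exact hP a h
    · rw [Finset.sum_range_succ, ← eF, hqk]
    · rw [Finset.sum_range_succ, ← eG, hgk]

/-- the meaning of the test, in terms of `f = theta s_K` and `h = (2 theta + n)(2 theta + n + 1) s_K`
with `n = K + 1` -/
theorem wcheck_pos (K m f : ℕ) (hK : 1 ≤ K) (y : ℝ) (hy : y ≠ 0)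
    (h : wcheck (K + 1) m f (rowL K) = true) :
    0 < ((starRingEnd ℂ) (Complex.I * y *
      (∑ i ∈ Finset.range (K + 1), (((2 * i + K + 1) * (2 * i + K + 2) * S3 K i : ℕ) : ℂ) *
        (Complex.I * y) ^ i)) *
      (Complex.I * y * (∑ i ∈ Finset.range (K + 1),
        (((2 * i + K + 1) * (2 * i + K + 2) * S3 K i : ℕ) : ℂ) * (Complex.I * y) ^ i) +
        4 * ∑ i ∈ Finset.range (K + 1), ((i * S3 K i : ℕ) : ℂ) * (Complex.I * y) ^ i)).re := by
  have h0 : pass (K + 1) m f (rowL K) (4 * Nat.div (K + 1) (K + 1)) ((K + 1 + 2) * (K + 1 + 3))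
    (4 * (K + 1) + 14) 0 0 0 [] [] [] [] = true := h
  rw [div_one] at h0
  have hS0 : S3 K 0 = 0 := by
    obtain ⟨K, rfl⟩ := Nat.exists_eq_succ_of_ne_zero (by omega : K ≠ 0)
    rfl
  have base : Inv (Complex.I * y) (y ^ 2) 0 0 [] [] := by
    refine Or.inl ⟨0, by simp, by simp, by simp, by simp [DD]⟩
  have := pass_eq K m f hK y hy K 0 4 ((K + 1 + 2) * (K + 1 + 3)) (4 * (K + 1) + 14) 0 0 0
    [] [] [] [] 0 0 (by omega) (by omega) (by ring) (by ring) (by simp [hk, hS0]) (by simp)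
    (by simp) le_rfl (by simp) (by simp) (by simp) (by simp) base base (by simp) (by simp) h0
  have e1 : (∑ i ∈ Finset.range (K + 1), (((2 * i + K + 1) * (2 * i + K + 2) * S3 K i : ℕ) : ℂ) *
        (Complex.I * y) ^ i) =
      ∑ i ∈ Finset.range K, (hk K (i + 1) : ℂ) * (Complex.I * y) ^ (i + 1) := by
    rw [Finset.sum_range_succ']
    simp [hk, hS0]
  have e2 : (∑ i ∈ Finset.range (K + 1), ((i * S3 K i : ℕ) : ℂ) * (Complex.I * y) ^ i) =
      ∑ i ∈ Finset.range K, (((i + 1) * S3 K (i + 1) : ℕ) : ℂ) * (Complex.I * y) ^ (i + 1) := by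
    rw [Finset.sum_range_succ']
    simp
  have e3 : (∑ i ∈ Finset.range K, (gk K (i + 1) : ℂ) * (Complex.I * y) ^ (i + 1)) +
        (hk K K : ℂ) * (Complex.I * y) ^ (K + 1) =
      Complex.I * y * (∑ i ∈ Finset.range K, (hk K (i + 1) : ℂ) * (Complex.I * y) ^ (i + 1)) +
        4 * ∑ i ∈ Finset.range K, (((i + 1) * S3 K (i + 1) : ℕ) : ℂ) *
          (Complex.I * y) ^ (i + 1) := by
    have e4 : ∑ i ∈ Finset.range K, (hk K i : ℂ) * (Complex.I * y) ^ (i + 1) +
        (hk K K : ℂ) * (Complex.I * y) ^ (K + 1) =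
        ∑ i ∈ Finset.range K, (hk K (i + 1) : ℂ) * (Complex.I * y) ^ (i + 1 + 1) := by
      rw [← Finset.sum_range_succ (fun i => (hk K i : ℂ) * (Complex.I * y) ^ (i + 1)),
        Finset.sum_range_succ']
      simp [hk, hS0]
    have e5 : ∀ i, (gk K (i + 1) : ℂ) * (Complex.I * y) ^ (i + 1) =
        (hk K i : ℂ) * (Complex.I * y) ^ (i + 1) +
        4 * ((((i + 1) * S3 K (i + 1) : ℕ) : ℂ) * (Complex.I * y) ^ (i + 1)) := by
      intro i
      rw [gk, Nat.add_sub_cancel]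
      push_cast
      ring
    rw [Finset.sum_congr rfl (fun i _ => e5 i), Finset.sum_add_distrib, add_right_comm, e4,
      Finset.mul_sum, Finset.mul_sum]
    congr 1
    refine Finset.sum_congr rfl (fun i _ => ?_)
    ring
  rw [e1, e2, ← e3]
  exact this

end STK
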