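import Mathlib
import Pool.Agent.Helper2.ST.K.Row
import Pool.Agent.Helper2.ST.K.Ana

/-!
# MP_3942cb_co, block K: the induction step for the Stirling polynomials
-/

namespace STK

open ST3 Polynomial

/-- the row polynomial -/
noncomputable def pp (K : ℕ) : ℂ[X] :=
  ∑ k ∈ Finset.range (K + 1), C (S3 K k : ℂ) * X ^ k

theorem pp_eval (K : ℕ) (x : ℂ) : (pp K).eval x = s K x := by
  rw [pp, s, eval_finsetSum]
  simp

theorem pp_coeff (K k : ℕ) : (pp K).coeff k = S3 K k := by
  rw [pp, finsetSum_coeff]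
  simp only [coeff_C_mul, coeff_X_pow, mul_ite, mul_one, mul_zero]
  rw [Finset.sum_ite_eq]
  split_ifs with h
  · rfl
  · rw [S3_zero_of_lt K k (by rw [Finset.mem_range] at h; omega)]
    simp

/-- the polynomial `(2 theta + K + 1)(2 theta + K + 2) s_K` -/
noncomputable def hpol (K : ℕ) : ℂ[X] := TT (K + 2) (TT (K + 1) (pp K))

theorem hpol_coeff (K k : ℕ) :
    (hpol K).coeff k = (((2 * k + K + 1) * (2 * k + K + 2) * S3 K k : ℕ) : ℂ) := by
  rw [hpol, TT_coeff, TT_coeff, pp_coeff]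
  push_cast
  ring

theorem hpol_eval (K : ℕ) (x : ℂ) : (hpol K).eval x =
    ∑ i ∈ Finset.range (K + 1), (((2 * i + K + 1) * (2 * i + K + 2) * S3 K i : ℕ) : ℂ) * x ^ i := by
  have h : hpol K = ∑ i ∈ Finset.range (K + 1),
      C ((((2 * i + K + 1) * (2 * i + K + 2) * S3 K i : ℕ) : ℂ)) * X ^ i := by
    ext k
    rw [hpol_coeff, finsetSum_coeff]
    simp only [coeff_C_mul, coeff_X_pow, mul_ite, mul_one, mul_zero]
    rw [Finset.sum_ite_eq]
    split_ifs with h
    · rfl
    · rw [S3_zero_of_lt K k (by rw [Finset.mem_range] at h; omega)]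
      simp
  rw [h, eval_finsetSum]
  simp

theorem der_eval (K : ℕ) (x : ℂ) : x * (derivative (pp K)).eval x =
    ∑ i ∈ Finset.range (K + 1), ((i * S3 K i : ℕ) : ℂ) * x ^ i := by
  rw [pp, derivative_sum, eval_finsetSum, Finset.mul_sum]
  refine Finset.sum_congr rfl (fun i _ => ?_)
  rcases i with _ | i
  · simp
  · simp only [derivative_C_mul_X_pow, Nat.add_sub_cancel, eval_mul, eval_C, eval_pow, eval_X]
    push_cast
    ring

theorem s_succ (K : ℕ) (x : ℂ) : s (K + 1) x =
    x * (derivative (pp K)).eval x + x * (hpol K).eval x / 2 := by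
  rw [der_eval, hpol_eval, s, Finset.sum_range_succ' _ (K + 1)]
  have h1 : ∑ i ∈ Finset.range (K + 1), ((i * S3 K i : ℕ) : ℂ) * x ^ i =
      ∑ i ∈ Finset.range (K + 1), (((i + 1) * S3 K (i + 1) : ℕ) : ℂ) * x ^ (i + 1) := by
    rw [Finset.sum_range_succ' _ K, Finset.sum_range_succ _ K, S3_zero_of_lt K (K + 1) (by omega)]
    simp
  rw [h1, S3_succ_zero, Finset.mul_sum, Finset.sum_div, ← Finset.sum_add_distrib]
  simp only [Nat.cast_zero, zero_mul, add_zero]
  refine Finset.sum_congr rfl (fun i _ => ?_)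
  have h2 := choose_two_eq (K + 2 * i)
  rw [S3]
  have h3 : ((K + 2 * i + 2).choose 2 : ℂ) = ((K : ℂ) + 2 * i + 2) * ((K : ℂ) + 2 * i + 1) / 2 := by
    rw [eq_div_iff (by norm_num)]
    exact_mod_cast h2
  push_cast
  rw [h3]
  ring

theorem step (K : ℕ) (hK : 2 ≤ K) (IH : ∀ x : ℂ, 0 ≤ x.re → x ≠ 0 → s K x ≠ 0)
    (m f : ℕ) (hw : wcheck (K + 1) m f (rowL K) = true) (x : ℂ) (hx : 0 ≤ x.re) (hx0 : x ≠ 0) :
    s (K + 1) x ≠ 0 := by
  have hS0 : S3 K 0 = 0 := by
    obtain ⟨K, rfl⟩ := Nat.exists_eq_succ_of_ne_zero (by omega : K ≠ 0)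
    rfl
  have hS1 := S3_pos K 1 le_rfl (by omega)
  have hS2 := S3_pos K 2 (by omega) hK
  have hSK := S3_pos K K (by omega) le_rfl
  have hS1c : (S3 K 1 : ℂ) ≠ 0 := by exact_mod_cast hS1.ne'
  have hS2c : (S3 K 2 : ℂ) ≠ 0 := by exact_mod_cast hS2.ne'
  have hKc : ∀ a b : ℕ, 0 < b → (2 * (a : ℂ) + ((K : ℝ) + b : ℝ)) ≠ 0 := by
    intro a b hb
    have : (0 : ℝ) < 2 * a + (K + b) := by positivity
    exact_mod_cast this.ne'
  have hp : ∀ x : ℂ, 0 ≤ x.re → x ≠ 0 → (pp K).eval x ≠ 0 := fun x h1 h2 => by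
    rw [pp_eval]; exact IH x h1 h2
  have hr1 : ∃ z, z ≠ 0 ∧ (pp K).eval z = 0 :=
    exists_root_ne_zero _ (by rw [pp_coeff, hS0]; simp) (by rw [pp_coeff]; exact hS1c)
      (by rw [pp_coeff]; exact hS2c)
  have hp1 := TT_ne_zero ((K : ℝ) + 1) (by positivity) (pp K) hp hr1
  have hr2 : ∃ z, z ≠ 0 ∧ (TT ((K : ℝ) + 1) (pp K)).eval z = 0 :=
    exists_root_ne_zero _ (by rw [TT_coeff, pp_coeff, hS0]; simp)
      (by
        rw [TT_coeff, pp_coeff]
        refine mul_ne_zero ?_ hS1c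
        have := hKc 1 1 one_pos
        simpa using this)
      (by
        rw [TT_coeff, pp_coeff]
        refine mul_ne_zero ?_ hS2c
        have := hKc 2 1 one_pos
        simpa using this)
  have hp2 := TT_ne_zero ((K : ℝ) + 2) (by positivity) (TT ((K : ℝ) + 1) (pp K)) hp1 hr2
  rw [s_succ]
  refine step_abs (pp K) (hpol K) (S3 K 1) (S3 K 2) ((K + 3) * (K + 4)) ((K + 5) * (K + 6))
    (by exact_mod_cast hS1) (by exact_mod_cast hS2) (by positivity) ?_
    (by rw [pp_coeff]; simp) (by rw [pp_coeff]; simp)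
    (by rw [hpol_coeff, hS0]; simp) ?_ ?_ ?_ hp2 ?_ x hx hx0
  · have : (2 : ℝ) ≤ K := by exact_mod_cast hK
    nlinarith
  · rw [hpol_coeff]; push_cast; ring
  · rw [hpol_coeff]; push_cast; ring
  · have h1 : K ≤ (hpol K).natDegree := by
      refine le_natDegree_of_ne_zero ?_
      rw [hpol_coeff]
      have : 0 < (2 * K + K + 1) * (2 * K + K + 2) * S3 K K := Nat.mul_pos (by positivity) hSK
      exact_mod_cast this.ne'
    have h2 : (pp K).natDegree ≤ K := by
      rw [pp]
      refine natDegree_sum_le_of_forall_le _ _ (fun i hi => ?_)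
      refine le_trans (natDegree_C_mul_X_pow_le _ _) ?_
      rw [Finset.mem_range] at hi; omega
    have h3 := natDegree_derivative_le (pp K)
    omega
  · intro y hy
    have := wcheck_pos K m f (by omega) y hy hw
    rw [← hpol_eval, ← der_eval] at this
    exact this

/-- many tests -/
theorem run_eq (f d : ℕ) (t : ℕ) : ∀ m K, 1 ≤ K → run f d t m (K + 1) (rowL K) = true →
    ∀ i < t, ∃ m', wcheck (K + i + 1) m' f (rowL (K + i)) = true := by
  induction t with
  | zero => intro m K _ _ i hi; omega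
  | succ t ih =>
    intro m K hK h i hi
    have h' : (wcheck (K + 1) m f (rowL K) &&
      run f d t (m + d) (K + 1 + 1) (next (K + 1) (rowL K))) = true := h
    rw [Bool.and_eq_true, next_rowL K hK] at h'
    rcases i with _ | i
    · exact ⟨m, h'.1⟩
    · obtain ⟨m', hm'⟩ := ih (m + d) (K + 1) (by omega) h'.2 i (by omega)
      refine ⟨m', ?_⟩
      rwa [show K + 1 + i = K + (i + 1) by ring] at hm'

theorem adv_eq (g : ℕ → List ℕ → Bool) (t : ℕ) : ∀ K, 1 ≤ K →
    adv t g (K + 1) (rowL K) = g (K + t + 1) (rowL (K + t)) := by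
  induction t with
  | zero => intro K _; rfl
  | succ t ih =>
    intro K hK
    have h' : adv (t + 1) g (K + 1) (rowL K) = adv t g (K + 1 + 1) (next (K + 1) (rowL K)) := rfl
    rw [h', next_rowL K hK, ih (K + 1) (by omega)]
    congr 2 <;> ring_nf

theorem eqL_eq (l : List ℕ) : ∀ r, eqL l r = true → l = r := by
  induction l with
  | nil =>
    intro r h
    rcases r with _ | ⟨b, r⟩
    · rfl
    · exact absurd h (by simp [eqL])
  | cons a l ih =>
    intro r h
    rcases r with _ | ⟨b, r⟩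
    · exact absurd h (by simp [eqL])
    · have h' : (Nat.beq a b && eqL l r) = true := h
      rw [Bool.and_eq_true] at h'
      rw [Nat.eq_of_beq_eq_true h'.1, ih r h'.2]

/-- a block of tests, starting from the row `K` -/
theorem block {K t f d c m : ℕ} {l : List ℕ} (hl : l = rowL K) (hK : 1 ≤ K)
    (h : adv t (fun n l => run f d c m n l) (K + 1) l = true) :
    ∀ n, K + t + 1 ≤ n → n < K + t + 1 + c → ∃ m f, wcheck n m f (rowL (n - 1)) = true := by
  intro n h1 h2
  rw [hl, adv_eq _ _ _ hK] at h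
  obtain ⟨m', hm'⟩ := run_eq f d c m (K + t) (by omega) h (n - (K + t + 1)) (by omega)
  refine ⟨m', f, ?_⟩
  rwa [show K + t + (n - (K + t + 1)) + 1 = n by omega,
    show K + t + (n - (K + t + 1)) = n - 1 by omega] at hm'

theorem next_block {K t : ℕ} {l r : List ℕ} (hl : l = rowL K) (hK : 1 ≤ K)
    (h : adv t (fun _ l => eqL l r) (K + 1) l = true) : r = rowL (K + t) := by
  rw [hl, adv_eq _ _ _ hK] at h
  exact (eqL_eq _ _ h).symm

theorem small_of_checks
    (h : ∀ n, 3 ≤ n → n < 1000 → ∃ m f, wcheck n m f (rowL (n - 1)) = true) :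
    ∀ n, 1 ≤ n → n < 1000 → ∀ x : ℂ, 0 ≤ x.re → x ≠ 0 → s n x ≠ 0 := by
  intro n
  induction n with
  | zero => intro h1; omega
  | succ n ih =>
    intro h1 h2 x hx hx0
    rcases n with _ | _ | n
    · simp [s, S3, Finset.sum_range_succ]
      exact hx0
    · have h3 : s (0 + 1 + 1) x = x * (1 + 10 * x) := by
        simp [s, S3, Finset.sum_range_succ, Nat.choose]
        ring
      rw [h3]
      refine mul_ne_zero hx0 ?_
      intro h4
      have h5 := congrArg Complex.re h4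
      simp at h5
      linarith
    · obtain ⟨m, f, hm⟩ := h (n + 1 + 1 + 1) (by omega) h2
      exact step (n + 1 + 1) (by omega) (ih (by omega) (by omega)) m f hm x hx hx0

end STK
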