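import Mathlib
import Pool.Agent.Helper2.ST.K.Step
import Pool.Agent.Helper2.ST.K.C01
import Pool.Agent.Helper2.ST.K.C02
import Pool.Agent.Helper2.ST.K.C03
import Pool.Agent.Helper2.ST.K.C04
import Pool.Agent.Helper2.ST.K.C05
import Pool.Agent.Helper2.ST.K.C06
import Pool.Agent.Helper2.ST.K.C07
import Pool.Agent.Helper2.ST.K.C08
import Pool.Agent.Helper2.ST.K.C09
import Pool.Agent.Helper2.ST.K.C10
import Pool.Agent.Helper2.ST.K.C11

/-!
# MP_3942cb_co, block K: no zeros in the closed right half plane except `0` for `n < 1000`
-/

namespace STK

open ST3

theorem row2_eq : [1, 10] = rowL 2 := by decide

theorem row399_eq : row399 = rowL 399 :=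
  next_block row2_eq (by norm_num) row399_check

theorem row499_eq : row499 = rowL 499 :=
  next_block row399_eq (by norm_num) row499_check

theorem row599_eq : row599 = rowL 599 :=
  next_block row499_eq (by norm_num) row599_check

theorem row699_eq : row699 = rowL 699 :=
  next_block row599_eq (by norm_num) row699_check

theorem row799_eq : row799 = rowL 799 :=
  next_block row699_eq (by norm_num) row799_check

theorem row899_eq : row899 = rowL 899 :=
  next_block row799_eq (by norm_num) row899_check

theorem all_checks (n : ℕ) (h1 : 3 ≤ n) (h2 : n < 1000) :
    ∃ m f, wcheck n m f (rowL (n - 1)) = true := by
  by_cases h3 : n < 103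
  · exact block row2_eq (by norm_num) c3.down n (by omega) (by omega)
  by_cases h103 : n < 203
  · exact block row2_eq (by norm_num) c103.down n (by omega) (by omega)
  by_cases h203 : n < 285
  · exact block row2_eq (by norm_num) c203.down n (by omega) (by omega)
  by_cases h285 : n < 335
  · exact block row2_eq (by norm_num) c285.down n (by omega) (by omega)
  by_cases h335 : n < 373
  · exact block row2_eq (by norm_num) c335.down n (by omega) (by omega)
  by_cases h373 : n < 400
  · exact block row2_eq (by norm_num) c373.down n (by omega) (by omega)
  by_cases h400 : n < 430
  · exact block row399_eq (by norm_num) c400.down n (by omega) (by omega)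
  by_cases h430 : n < 455
  · exact block row399_eq (by norm_num) c430.down n (by omega) (by omega)
  by_cases h455 : n < 477
  · exact block row399_eq (by norm_num) c455.down n (by omega) (by omega)
  by_cases h477 : n < 497
  · exact block row399_eq (by norm_num) c477.down n (by omega) (by omega)
  by_cases h497 : n < 500
  · exact block row399_eq (by norm_num) c497.down n (by omega) (by omega)
  by_cases h500 : n < 520
  · exact block row499_eq (by norm_num) c500.down n (by omega) (by omega)
  by_cases h520 : n < 538
  · exact block row499_eq (by norm_num) c520.down n (by omega) (by omega)
  by_cases h538 : n < 554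
  · exact block row499_eq (by norm_num) c538.down n (by omega) (by omega)
  by_cases h554 : n < 569
  · exact block row499_eq (by norm_num) c554.down n (by omega) (by omega)
  by_cases h569 : n < 582
  · exact block row499_eq (by norm_num) c569.down n (by omega) (by omega)
  by_cases h582 : n < 594
  · exact block row499_eq (by norm_num) c582.down n (by omega) (by omega)
  by_cases h594 : n < 600
  · exact block row499_eq (by norm_num) c594.down n (by omega) (by omega)
  by_cases h600 : n < 614
  · exact block row599_eq (by norm_num) c600.down n (by omega) (by omega)
  by_cases h614 : n < 627
  · exact block row599_eq (by norm_num) c614.down n (by omega) (by omega)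
  by_cases h627 : n < 639
  · exact block row599_eq (by norm_num) c627.down n (by omega) (by omega)
  by_cases h639 : n < 650
  · exact block row599_eq (by norm_num) c639.down n (by omega) (by omega)
  by_cases h650 : n < 660
  · exact block row599_eq (by norm_num) c650.down n (by omega) (by omega)
  by_cases h660 : n < 670
  · exact block row599_eq (by norm_num) c660.down n (by omega) (by omega)
  by_cases h670 : n < 679
  · exact block row599_eq (by norm_num) c670.down n (by omega) (by omega)
  by_cases h679 : n < 688
  · exact block row599_eq (by norm_num) c679.down n (by omega) (by omega)
  by_cases h688 : n < 696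
  · exact block row599_eq (by norm_num) c688.down n (by omega) (by omega)
  by_cases h696 : n < 700
  · exact block row599_eq (by norm_num) c696.down n (by omega) (by omega)
  by_cases h700 : n < 710
  · exact block row699_eq (by norm_num) c700.down n (by omega) (by omega)
  by_cases h710 : n < 719
  · exact block row699_eq (by norm_num) c710.down n (by omega) (by omega)
  by_cases h719 : n < 728
  · exact block row699_eq (by norm_num) c719.down n (by omega) (by omega)
  by_cases h728 : n < 736
  · exact block row699_eq (by norm_num) c728.down n (by omega) (by omega)
  by_cases h736 : n < 744
  · exact block row699_eq (by norm_num) c736.down n (by omega) (by omega)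
  by_cases h744 : n < 752
  · exact block row699_eq (by norm_num) c744.down n (by omega) (by omega)
  by_cases h752 : n < 759
  · exact block row699_eq (by norm_num) c752.down n (by omega) (by omega)
  by_cases h759 : n < 766
  · exact block row699_eq (by norm_num) c759.down n (by omega) (by omega)
  by_cases h766 : n < 773
  · exact block row699_eq (by norm_num) c766.down n (by omega) (by omega)
  by_cases h773 : n < 779
  · exact block row699_eq (by norm_num) c773.down n (by omega) (by omega)
  by_cases h779 : n < 785
  · exact block row699_eq (by norm_num) c779.down n (by omega) (by omega)
  by_cases h785 : n < 791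
  · exact block row699_eq (by norm_num) c785.down n (by omega) (by omega)
  by_cases h791 : n < 796
  · exact block row699_eq (by norm_num) c791.down n (by omega) (by omega)
  by_cases h796 : n < 800
  · exact block row699_eq (by norm_num) c796.down n (by omega) (by omega)
  by_cases h800 : n < 808
  · exact block row799_eq (by norm_num) c800.down n (by omega) (by omega)
  by_cases h808 : n < 815
  · exact block row799_eq (by norm_num) c808.down n (by omega) (by omega)
  by_cases h815 : n < 822
  · exact block row799_eq (by norm_num) c815.down n (by omega) (by omega)
  by_cases h822 : n < 829
  · exact block row799_eq (by norm_num) c822.down n (by omega) (by omega)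
  by_cases h829 : n < 835
  · exact block row799_eq (by norm_num) c829.down n (by omega) (by omega)
  by_cases h835 : n < 841
  · exact block row799_eq (by norm_num) c835.down n (by omega) (by omega)
  by_cases h841 : n < 847
  · exact block row799_eq (by norm_num) c841.down n (by omega) (by omega)
  by_cases h847 : n < 852
  · exact block row799_eq (by norm_num) c847.down n (by omega) (by omega)
  by_cases h852 : n < 857
  · exact block row799_eq (by norm_num) c852.down n (by omega) (by omega)
  by_cases h857 : n < 862
  · exact block row799_eq (by norm_num) c857.down n (by omega) (by omega)
  by_cases h862 : n < 867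
  · exact block row799_eq (by norm_num) c862.down n (by omega) (by omega)
  by_cases h867 : n < 872
  · exact block row799_eq (by norm_num) c867.down n (by omega) (by omega)
  by_cases h872 : n < 876
  · exact block row799_eq (by norm_num) c872.down n (by omega) (by omega)
  by_cases h876 : n < 880
  · exact block row799_eq (by norm_num) c876.down n (by omega) (by omega)
  by_cases h880 : n < 884
  · exact block row799_eq (by norm_num) c880.down n (by omega) (by omega)
  by_cases h884 : n < 888
  · exact block row799_eq (by norm_num) c884.down n (by omega) (by omega)
  by_cases h888 : n < 892
  · exact block row799_eq (by norm_num) c888.down n (by omega) (by omega)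
  by_cases h892 : n < 896
  · exact block row799_eq (by norm_num) c892.down n (by omega) (by omega)
  by_cases h896 : n < 899
  · exact block row799_eq (by norm_num) c896.down n (by omega) (by omega)
  by_cases h899 : n < 900
  · exact block row799_eq (by norm_num) c899.down n (by omega) (by omega)
  by_cases h900 : n < 906
  · exact block row899_eq (by norm_num) c900.down n (by omega) (by omega)
  by_cases h906 : n < 912
  · exact block row899_eq (by norm_num) c906.down n (by omega) (by omega)
  by_cases h912 : n < 917
  · exact block row899_eq (by norm_num) c912.down n (by omega) (by omega)
  by_cases h917 : n < 922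
  · exact block row899_eq (by norm_num) c917.down n (by omega) (by omega)
  by_cases h922 : n < 927
  · exact block row899_eq (by norm_num) c922.down n (by omega) (by omega)
  by_cases h927 : n < 932
  · exact block row899_eq (by norm_num) c927.down n (by omega) (by omega)
  by_cases h932 : n < 937
  · exact block row899_eq (by norm_num) c932.down n (by omega) (by omega)
  by_cases h937 : n < 941
  · exact block row899_eq (by norm_num) c937.down n (by omega) (by omega)
  by_cases h941 : n < 945
  · exact block row899_eq (by norm_num) c941.down n (by omega) (by omega)
  by_cases h945 : n < 949
  · exact block row899_eq (by norm_num) c945.down n (by omega) (by omega)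
  by_cases h949 : n < 953
  · exact block row899_eq (by norm_num) c949.down n (by omega) (by omega)
  by_cases h953 : n < 957
  · exact block row899_eq (by norm_num) c953.down n (by omega) (by omega)
  by_cases h957 : n < 961
  · exact block row899_eq (by norm_num) c957.down n (by omega) (by omega)
  by_cases h961 : n < 964
  · exact block row899_eq (by norm_num) c961.down n (by omega) (by omega)
  by_cases h964 : n < 967
  · exact block row899_eq (by norm_num) c964.down n (by omega) (by omega)
  by_cases h967 : n < 970
  · exact block row899_eq (by norm_num) c967.down n (by omega) (by omega)
  by_cases h970 : n < 973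
  · exact block row899_eq (by norm_num) c970.down n (by omega) (by omega)
  by_cases h973 : n < 976
  · exact block row899_eq (by norm_num) c973.down n (by omega) (by omega)
  by_cases h976 : n < 979
  · exact block row899_eq (by norm_num) c976.down n (by omega) (by omega)
  by_cases h979 : n < 982
  · exact block row899_eq (by norm_num) c979.down n (by omega) (by omega)
  by_cases h982 : n < 985
  · exact block row899_eq (by norm_num) c982.down n (by omega) (by omega)
  by_cases h985 : n < 988
  · exact block row899_eq (by norm_num) c985.down n (by omega) (by omega)
  by_cases h988 : n < 990
  · exact block row899_eq (by norm_num) c988.down n (by omega) (by omega)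
  by_cases h990 : n < 992
  · exact block row899_eq (by norm_num) c990.down n (by omega) (by omega)
  by_cases h992 : n < 994
  · exact block row899_eq (by norm_num) c992.down n (by omega) (by omega)
  by_cases h994 : n < 996
  · exact block row899_eq (by norm_num) c994.down n (by omega) (by omega)
  by_cases h996 : n < 998
  · exact block row899_eq (by norm_num) c996.down n (by omega) (by omega)
  exact block row899_eq (by norm_num) c998.down n (by omega) (by omega)

end STK

namespace ST3

/-- block K: for `1 <= n < 1000` the polynomial has no zeros with nonnegative real part except `0` -/
theorem small (n : ℕ) (h1 : 1 ≤ n) (h2 : n < 1000) (x : ℂ) (hx : 0 ≤ x.re) (hx0 : x ≠ 0) :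
    s n x ≠ 0 :=
  STK.small_of_checks STK.all_checks n h1 h2 x hx hx0

end ST3
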